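import Pool.Agent.Lib_helper51.TM32.E0

set_option autoImplicit false

namespace Pool.Agent.TM32

open Zsqrtd

/-- coordinates of `ℤ[√-2]` -/
def e2 : Zs ≃+ (Fin 2 → ℤ) where
  toFun z := ![z.re, z.im]
  invFun v := ⟨v 0, v 1⟩
  left_inv z := by ext <;> simp
  right_inv v := by funext i; fin_cases i <;> simp
  map_add' x y := by funext i; fin_cases i <;> simp

/-- coordinates of `ℤ[ζ₈]` -/
def e8 : Z8 ≃+ (Fin 4 → ℤ) where
  toFun z := ![z.re.re, z.re.im, z.im.re, z.im.im]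
  invFun v := ⟨⟨v 0, v 1⟩, ⟨v 2, v 3⟩⟩
  left_inv z := by
    apply QuadraticAlgebra.ext <;> ext <;> simp
  right_inv v := by funext i; fin_cases i <;> simp
  map_add' x y := by funext i; fin_cases i <;> simp

@[simp] theorem e2_zero (z : Zs) : e2 z 0 = z.re := rfl
@[simp] theorem e2_one (z : Zs) : e2 z 1 = z.im := rfl
@[simp] theorem e8_zero (z : Z8) : e8 z 0 = z.re.re := rfl
@[simp] theorem e8_one (z : Z8) : e8 z 1 = z.re.im := rfl
@[simp] theorem e8_two (z : Z8) : e8 z 2 = z.im.re := rfl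
@[simp] theorem e8_three (z : Z8) : e8 z 3 = z.im.im := rfl

theorem e2_mul (x y : Zs) (R R' : ℕ) (hx : ∀ i, |e2 x i| ≤ R) (hy : ∀ i, |e2 y i| ≤ R') :
    ∀ i, |e2 (x * y) i| ≤ (3 : ℕ) * R * R' := by
  have a0 := hx 0
  have a1 := hx 1
  have b0 := hy 0
  have b1 := hy 1
  simp only [e2_zero, e2_one] at a0 a1 b0 b1
  have key : ∀ a b : ℤ, |a| ≤ R → |b| ≤ R' → |a * b| ≤ R * R' := by
    intro a b ha hb
    rw [abs_mul]
    exact mul_le_mul ha hb (abs_nonneg _) (by positivity)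
  have k1 := abs_le.1 (key _ _ a0 b0)
  have k2 := abs_le.1 (key _ _ a1 b1)
  have k3 := abs_le.1 (key _ _ a0 b1)
  have k4 := abs_le.1 (key _ _ a1 b0)
  have hnn : (0 : ℤ) ≤ R * R' := by positivity
  intro i
  fin_cases i
  · show |(x * y).re| ≤ _
    rw [Zsqrtd.re_mul, abs_le]
    push_cast
    constructor <;> linarith [k1.1, k1.2, k2.1, k2.2]
  · show |(x * y).im| ≤ _
    rw [Zsqrtd.im_mul, abs_le]
    push_cast
    constructor <;> linarith [k3.1, k3.2, k4.1, k4.2]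

theorem e8_mul (x y : Z8) (R R' : ℕ) (hx : ∀ i, |e8 x i| ≤ R) (hy : ∀ i, |e8 y i| ≤ R') :
    ∀ i, |e8 (x * y) i| ≤ (12 : ℕ) * R * R' := by
  have a0 := hx 0
  have a1 := hx 1
  have a2 := hx 2
  have a3 := hx 3
  have b0 := hy 0
  have b1 := hy 1
  have b2 := hy 2
  have b3 := hy 3
  simp only [e8_zero, e8_one, e8_two, e8_three] at a0 a1 a2 a3 b0 b1 b2 b3
  have key : ∀ a b : ℤ, |a| ≤ R → |b| ≤ R' → |a * b| ≤ R * R' := by
    intro a b ha hb
    rw [abs_mul]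
    exact mul_le_mul ha hb (abs_nonneg _) (by positivity)
  have k00 := abs_le.1 (key _ _ a0 b0)
  have k01 := abs_le.1 (key _ _ a0 b1)
  have k02 := abs_le.1 (key _ _ a0 b2)
  have k03 := abs_le.1 (key _ _ a0 b3)
  have k10 := abs_le.1 (key _ _ a1 b0)
  have k11 := abs_le.1 (key _ _ a1 b1)
  have k12 := abs_le.1 (key _ _ a1 b2)
  have k13 := abs_le.1 (key _ _ a1 b3)
  have k20 := abs_le.1 (key _ _ a2 b0)
  have k21 := abs_le.1 (key _ _ a2 b1)
  have k22 := abs_le.1 (key _ _ a2 b2)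
  have k23 := abs_le.1 (key _ _ a2 b3)
  have k30 := abs_le.1 (key _ _ a3 b0)
  have k31 := abs_le.1 (key _ _ a3 b1)
  have k32 := abs_le.1 (key _ _ a3 b2)
  have k33 := abs_le.1 (key _ _ a3 b3)
  have hnn : (0 : ℤ) ≤ R * R' := by positivity
  have hre : (x * y).re = x.re * y.re + x.im * y.im := by
    rw [QuadraticAlgebra.re_mul]; ring
  have him : (x * y).im = x.re * y.im + x.im * y.re + sq * (x.im * y.im) := by
    rw [QuadraticAlgebra.im_mul]; ring
  intro i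
  fin_cases i
  · show |(x * y).re.re| ≤ _
    rw [hre, abs_le]
    simp only [Zsqrtd.re_add, Zsqrtd.re_mul, Zsqrtd.im_mul]
    push_cast
    constructor <;> linarith [k00.1, k00.2, k11.1, k11.2, k22.1, k22.2, k33.1, k33.2]
  · show |(x * y).re.im| ≤ _
    rw [hre, abs_le]
    simp only [Zsqrtd.im_add, Zsqrtd.re_mul, Zsqrtd.im_mul]
    push_cast
    constructor <;> linarith [k01.1, k01.2, k10.1, k10.2, k23.1, k23.2, k32.1, k32.2]
  · show |(x * y).im.re| ≤ _
    rw [him, abs_le]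
    simp only [Zsqrtd.re_add, Zsqrtd.im_add, Zsqrtd.re_mul, Zsqrtd.im_mul]
    push_cast
    constructor <;> linarith [k02.1, k02.2, k20.1, k20.2, k13.1, k13.2, k31.1, k31.2, k23.1, k23.2,
      k32.1, k32.2]
  · show |(x * y).im.im| ≤ _
    rw [him, abs_le]
    simp only [Zsqrtd.re_add, Zsqrtd.im_add, Zsqrtd.re_mul, Zsqrtd.im_mul]
    push_cast
    constructor <;> linarith [k03.1, k03.2, k30.1, k30.2, k12.1, k12.2, k21.1, k21.2, k22.1, k22.2,
      k33.1, k33.2]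

theorem nzd8 : NoZeroDivisors Z8 := inferInstance

end Pool.Agent.TM32
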