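import Pool.Agent.Lib_helper96.TM32.BilCore
import Pool.Agent.Lib_helper96.TM32.Coord
import Pool.Agent.Lib_helper33.TM32.Z2
import Pool.Agent.Lib_helper37.TM32.D1

set_option autoImplicit false

namespace Pool.Agent.TM32

open Finset Zsqrtd

theorem B1_fin (B : ℕ) : ∃ S : Finset Zs, ∀ x : Zs, x ≠ 0 → x.norm.natAbs ≤ B →
    ∃ y ∈ S, Associated x y := by
  refine ⟨((Icc (-(B : ℤ)) B) ×ˢ (Icc (-(B : ℤ)) B)).image (fun p => (⟨p.1, p.2⟩ : Zs)), ?_⟩
  intro x _ hx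
  refine ⟨x, ?_, Associated.refl x⟩
  rw [Finset.mem_image]
  have h1 : x.norm ≤ B := by
    have := nn x
    omega
  rw [nv] at h1
  have h2 : x.re ^ 2 ≤ B := by nlinarith [sq_nonneg x.im]
  have h3 : x.im ^ 2 ≤ B := by nlinarith [sq_nonneg x.re, sq_nonneg x.im]
  have key : ∀ a : ℤ, a ^ 2 ≤ B → a ∈ Icc (-(B : ℤ)) B := by
    intro a ha
    rw [Finset.mem_Icc]
    constructor
    · nlinarith [sq_nonneg (a + 1), sq_nonneg a]
    · nlinarith [sq_nonneg (a - 1), sq_nonneg a]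
  exact ⟨(x.re, x.im), Finset.mem_product.2 ⟨key _ h2, key _ h3⟩, rfl⟩

theorem B1_div (ε : ℝ) (hε : 0 < ε) : ∃ C : ℝ, 1 ≤ C ∧ ∀ z : Zs, z ≠ 0 → ∀ D : Finset Zs,
    (∀ x ∈ D, x ∣ z) → (D.card : ℝ) ≤ C * (z.norm.natAbs : ℝ) ^ ε := by
  classical
  obtain ⟨C, hC⟩ := div_bound (Λ := Zs) (fun z => z.norm.natAbs)
    (fun x y => by simp only [Zsqrtd.norm_mul, Int.natAbs_mul])
    (fun x hx => by have := n_pos hx; omega)
    (fun x hx => Zsqrtd.norm_eq_one_iff.1 hx) B1_fin ε hε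
  refine ⟨max 1 (2 * C), le_max_left _ _, fun z hz D hD => ?_⟩
  set pos : Zs → Prop := fun x => 0 < x.re ∨ (x.re = 0 ∧ 0 < x.im) with hpos
  have hne : ∀ x ∈ D, x ≠ 0 := by
    rintro x hx rfl
    exact hz (zero_dvd_iff.1 (hD _ hx))
  have a1 := hC z hz (D.filter pos) (fun x hx => hD x (Finset.mem_filter.1 hx).1) (by
    intro x hx y hy hxy
    have px := (Finset.mem_filter.1 hx).2
    have py := (Finset.mem_filter.1 hy).2
    obtain ⟨u, rfl⟩ := hxy
    rcases Z33.unit_cases u.isUnit with h | h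
    · rw [h, mul_one]
    · exfalso
      rw [h, mul_neg_one] at py
      simp only [hpos, Zsqrtd.re_neg, Zsqrtd.im_neg] at px py
      omega)
  have a2 := hC z hz (D.filter (fun x => ¬ pos x)) (fun x hx => hD x (Finset.mem_filter.1 hx).1) (by
    intro x hx y hy hxy
    have px := (Finset.mem_filter.1 hx).2
    have py := (Finset.mem_filter.1 hy).2
    have hx0 := hne x (Finset.mem_filter.1 hx).1
    obtain ⟨u, rfl⟩ := hxy
    rcases Z33.unit_cases u.isUnit with h | h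
    · rw [h, mul_one]
    · exfalso
      rw [h, mul_neg_one] at py
      simp only [hpos, Zsqrtd.re_neg, Zsqrtd.im_neg] at px py
      apply hx0
      ext
      · simp; omega
      · simp; omega)
  have a3 : (D.card : ℝ) = (D.filter pos).card + (D.filter (fun x => ¬ pos x)).card := by
    rw [← Finset.card_filter_add_card_filter_not pos]
    push_cast
    rfl
  rw [a3]
  have hp : (0 : ℝ) ≤ (z.norm.natAbs : ℝ) ^ ε := by positivity
  calc ((D.filter pos).card : ℝ) + (D.filter (fun x => ¬ pos x)).card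
      ≤ C * (z.norm.natAbs : ℝ) ^ ε + C * (z.norm.natAbs : ℝ) ^ ε := add_le_add a1 a2
    _ = (2 * C) * (z.norm.natAbs : ℝ) ^ ε := by ring
    _ ≤ _ := mul_le_mul_of_nonneg_right (le_max_right _ _) hp

theorem B1_box (R : ℕ) (hR : 1 ≤ R) (X : Finset Zs) (hX : ∀ x ∈ X, |x.re| ≤ R ∧ |x.im| ≤ R) :
    (X.card : ℝ) ≤ 9 * (R : ℝ) ^ 2 := by
  have hsub : X ⊆ ((Icc (-(R : ℤ)) R) ×ˢ (Icc (-(R : ℤ)) R)).image (fun p => (⟨p.1, p.2⟩ : Zs)) := by
    intro x hx
    rw [Finset.mem_image]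
    obtain ⟨h1, h2⟩ := hX x hx
    rw [abs_le] at h1 h2
    exact ⟨(x.re, x.im), Finset.mem_product.2 ⟨Finset.mem_Icc.2 h1, Finset.mem_Icc.2 h2⟩, rfl⟩
  have h1 : X.card ≤ (2 * R + 1) * (2 * R + 1) := by
    refine (Finset.card_le_card hsub).trans ((Finset.card_image_le).trans ?_)
    rw [Finset.card_product, Int.card_Icc]
    apply le_of_eq
    congr 1 <;> omega
  have h2 : (2 * R + 1) * (2 * R + 1) ≤ 9 * R ^ 2 := by nlinarith
  have h3 := h1.trans h2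
  exact_mod_cast h3

theorem B1_norm (R : ℕ) (x : Zs) (h1 : |x.re| ≤ R) (h2 : |x.im| ≤ R) :
    x.norm.natAbs ≤ 3 * R ^ 2 := by
  have h3 : x.norm ≤ 3 * (R : ℤ) ^ 2 := by
    rw [nv]
    have a1 : x.re ^ 2 ≤ (R : ℤ) ^ 2 := by rw [← sq_abs]; exact pow_le_pow_left₀ (abs_nonneg _) h1 2
    have a2 : x.im ^ 2 ≤ (R : ℤ) ^ 2 := by rw [← sq_abs]; exact pow_le_pow_left₀ (abs_nonneg _) h2 2
    linarith
  have := nn x
  zify
  rw [abs_of_nonneg this]
  exact h3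

theorem B1_pow (C : ℝ) (R : ℕ) :
    (C * (((3 * (R : ℝ) ^ 2) ^ 6) ^ (1 / 96 : ℝ))) ^ 8 ≤ C ^ 8 * (2 * R) := by
  have h0 : (0 : ℝ) ≤ 3 * (R : ℝ) ^ 2 := by positivity
  have e : ((((3 * (R : ℝ) ^ 2) ^ 6) ^ (1 / 96 : ℝ))) ^ 8 = Real.sqrt (3 * (R : ℝ) ^ 2) := by
    rw [← Real.rpow_natCast, ← Real.rpow_natCast (3 * (R : ℝ) ^ 2) 6, ← Real.rpow_mul h0,
      ← Real.rpow_mul h0, Real.sqrt_eq_rpow]
    norm_num
  rw [mul_pow, e]
  refine mul_le_mul_of_nonneg_left ?_ (by positivity)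
  rw [Real.sqrt_le_left (by positivity)]
  nlinarith [sq_nonneg (R : ℝ)]

theorem bil1 : ∃ δ : ℝ, 0 < δ ∧ ∃ C : ℝ, ∀ R : ℕ, 1 ≤ R → ∀ (X Y : Finset Zs),
    (∀ x ∈ X, |x.re| ≤ R ∧ |x.im| ≤ R) →
    (∀ y ∈ Y, |y.re| ≤ R ∧ |y.im| ≤ R ∧ y.norm % 2 = 1) →
    ∑ y ∈ Y, |∑ x ∈ X, (qs x y : ℝ)| ≤ C * (R : ℝ) ^ (4 - δ) := by
  classical
  obtain ⟨C0, hC0, hdiv⟩ := B1_div (1 / 96) (by norm_num)
  set K : ℝ := 9 ^ 16 * (3 * 10 ^ 7) * (C0 ^ 8 * 2) with hK
  have hK0 : 0 ≤ K := by positivity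
  refine ⟨1 / 12, by norm_num, K ^ (1 / 12 : ℝ) + 9, fun R hR X Y hX hY => ?_⟩
  have hR1 : (1 : ℝ) ≤ R := by exact_mod_cast hR
  have hR0 : (0 : ℝ) ≤ R := by linarith
  have hval : ∀ (x : Zs), ∀ y ∈ Y, qs x y = 0 ∨ qs x y = 1 ∨ qs x y = -1 := by
    intro x y hy
    by_cases h : IsCoprime x y
    · exact Or.inr (qs_pm (hY y hy).2.2 h)
    · exact Or.inl (qs_zero (hY y hy).2.2 h)
  set X' := X.erase 0 with hX'
  set q : ℕ := 3 * R ^ 2 with hq
  set D : ℝ := C0 * (((3 * (R : ℝ) ^ 2) ^ 6) ^ (1 / 96 : ℝ)) with hD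
  have hq1 : 1 ≤ q := by rw [hq]; nlinarith
  have hD1 : 1 ≤ D := by
    rw [hD]
    have : (1 : ℝ) ≤ ((3 * (R : ℝ) ^ 2) ^ 6) ^ (1 / 96 : ℝ) := by
      apply Real.one_le_rpow _ (by norm_num)
      apply one_le_pow₀
      nlinarith
    nlinarith
  -- the divisor bound in the form needed
  have hdv : ∀ z : Zs, z ≠ 0 → z.norm.natAbs ≤ q ^ 6 → ∀ E : Finset Zs, (∀ x ∈ E, x ∣ z) →
      E.card ≤ ⌊D⌋₊ := by
    intro z hz hzq E hE
    apply Nat.le_floor
    refine (hdiv z hz E hE).trans ?_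
    rw [hD]
    refine mul_le_mul_of_nonneg_left ?_ (by linarith)
    apply Real.rpow_le_rpow (by positivity) _ (by norm_num)
    have : (z.norm.natAbs : ℝ) ≤ ((q ^ 6 : ℕ) : ℝ) := by exact_mod_cast hzq
    refine this.trans (le_of_eq ?_)
    rw [hq]
    push_cast
    ring
  have hcore := bil_core 2 (by norm_num) e2 3 e2_mul (fun z => z.norm.natAbs) (fun x y => qs x y)
    Y q hval (fun x x' y hy => qs_mul_left x x' (hY y hy).2.2)
    (by
      intro x x' y hy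
      apply qs_congr (hY y hy).2.2
      have e1 : x + ((y.norm.natAbs : ℕ) : Zs) * x' - x = ((y.norm : ℤ) : Zs) * x' := by
        have : ((y.norm.natAbs : ℕ) : Zs) = ((y.norm : ℤ) : Zs) := by
          conv_rhs => rw [← Int.natAbs_of_nonneg (nn y)]
          rw [Int.cast_natCast]
        rw [this]; ring
      rw [e1]
      exact (Z33.norm_dvd y).mul_right _)
    (fun u y hy => qs_int u (hY y hy).2.2)
    (by
      intro y hy
      refine ⟨?_, ?_, ?_⟩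
      · have h1 := (hY y hy).2.2
        have h2 := nn y
        rw [Nat.odd_iff]
        show y.norm.natAbs % 2 = 1
        omega
      · exact B1_norm R y (hY y hy).1 (hY y hy).2.1
      · have : ((y.norm.natAbs : ℕ) : Zs) = ((y.norm : ℤ) : Zs) := by
          conv_rhs => rw [← Int.natAbs_of_nonneg (nn y)]
          rw [Int.cast_natCast]
        show y ∣ ((y.norm.natAbs : ℕ) : Zs)
        rw [this]
        exact Z33.norm_dvd y)
    3 (by norm_num) X' R (by omega)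
    (by
      intro x hx i
      have h := hX x (Finset.mem_of_mem_erase hx)
      fin_cases i
      · exact h.1
      · exact h.2)
    (fun _ => 1) (fun _ => by norm_num) ⌊D⌋₊
    (by
      intro v hv E _ hE
      refine hdv _ ?_ ?_ E hE
      · rw [Finset.prod_ne_zero_iff]
        intro i _
        exact Finset.ne_of_mem_erase (hv i)
      · have h1 : (∏ i, v i).norm.natAbs = ∏ i, (v i).norm.natAbs := by
          have h2 : ∀ s : Finset (Fin (2 * 3)), (∏ i ∈ s, v i).norm.natAbs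
              = ∏ i ∈ s, (v i).norm.natAbs := by
            intro s
            induction s using Finset.induction_on with
            | empty => simp
            | insert a s ha ih =>
              rw [Finset.prod_insert ha, Finset.prod_insert ha, Zsqrtd.norm_mul, Int.natAbs_mul, ih]
          exact h2 _
        rw [h1]
        refine (Finset.prod_le_pow_card _ _ q ?_).trans ?_
        · intro i _
          have h := hX _ (Finset.mem_of_mem_erase (hv i))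
          exact B1_norm R _ h.1 h.2
        · simp)
    (by
      intro m hm hmq E _ hE
      refine hdv _ ?_ ?_ E hE
      · intro h
        have h1 : ((m ^ 2 : ℕ) : Zs).re = 0 := by rw [h]; simp
        rw [Zsqrtd.re_natCast] at h1
        have : 0 < m ^ 2 := by positivity
        omega
      · have h1 : ((m ^ 2 : ℕ) : Zs).norm.natAbs = m ^ 4 := by
          have h2 : ((m ^ 2 : ℕ) : Zs).norm = ((m ^ 4 : ℕ) : ℤ) := by
            rw [nv, Zsqrtd.re_natCast, Zsqrtd.im_natCast]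
            push_cast
            ring
          rw [h2, Int.natAbs_natCast]
        rw [h1]
        calc m ^ 4 ≤ q ^ 4 := Nat.pow_le_pow_left hmq 4
          _ ≤ q ^ 6 := Nat.pow_le_pow_right hq1 (by norm_num))
    (3 ^ (2 * 3) * R ^ (2 * 3)) rfl
    (by
      rw [hq]
      have : R ^ 4 ≤ R ^ 6 := Nat.pow_le_pow_right hR (by norm_num)
      calc (3 * R ^ 2) ^ 2 = 9 * R ^ 4 := by ring
        _ ≤ 729 * R ^ 6 := by omega
        _ = 3 ^ (2 * 3) * R ^ (2 * 3) := by norm_num)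
  have hYc : (Y.card : ℝ) ≤ 9 * (R : ℝ) ^ 2 := B1_box R hR Y (fun y hy => ⟨(hY y hy).1, (hY y hy).2.1⟩)
  have hXc : (X'.card : ℝ) ≤ 9 * (R : ℝ) ^ 2 :=
    B1_box R hR X' (fun x hx => hX x (Finset.mem_of_mem_erase hx))
  have hdD : ((⌊D⌋₊ : ℕ) : ℝ) ≤ D := Nat.floor_le (by linarith)
  set A : ℝ := ∑ y ∈ Y, |∑ x ∈ X', (1 : ℝ) * (qs x y : ℝ)| with hA
  have hA0 : 0 ≤ A := Finset.sum_nonneg (fun _ _ => abs_nonneg _)
  have hA12 : A ^ 12 ≤ K * (R : ℝ) ^ 47 := by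
    have hqR : (q : ℝ) = 3 * (R : ℝ) ^ 2 := by rw [hq]; push_cast; ring
    calc A ^ 12 ≤ _ := hcore
      _ ≤ (9 * (R : ℝ) ^ 2) ^ (4 * 3 - 2) * (D ^ (2 * 3) * (9 * (R : ℝ) ^ 2) ^ (2 * 3)) *
        (((3 * (R : ℝ) ^ 2) * D ^ 2) * (3 * (729 * (R : ℝ) ^ 6)) ^ 2 +
          (9 * (R : ℝ) ^ 2) ^ 2 * (2 * 2 * (3 * (R : ℝ) ^ 2) ^ 2 *
            (4 * (729 * (R : ℝ) ^ 6)) ^ (2 - 1))) := by
          rw [hqR]
          push_cast
          norm_num only
          gcongr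
      _ = 9 ^ 16 * D ^ 6 * (R : ℝ) ^ 46 * (14348907 * D ^ 2 + 8503056) := by
          norm_num only
          ring
      _ ≤ 9 ^ 16 * D ^ 6 * (R : ℝ) ^ 46 * ((3 * 10 ^ 7) * D ^ 2) := by
          gcongr
          nlinarith
      _ = 9 ^ 16 * (3 * 10 ^ 7) * (R : ℝ) ^ 46 * D ^ 8 := by ring
      _ ≤ 9 ^ 16 * (3 * 10 ^ 7) * (R : ℝ) ^ 46 * (C0 ^ 8 * (2 * R)) := by
          refine mul_le_mul_of_nonneg_left (B1_pow C0 R) (by positivity)
      _ = K * (R : ℝ) ^ 47 := by rw [hK]; ring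
  have hAf : A ≤ K ^ (1 / 12 : ℝ) * (R : ℝ) ^ (4 - 1 / 12 : ℝ) := by
    have h1 : A = (A ^ 12) ^ (1 / 12 : ℝ) := by
      rw [← Real.rpow_natCast, ← Real.rpow_mul hA0]
      norm_num
    rw [h1]
    calc (A ^ 12) ^ (1 / 12 : ℝ) ≤ (K * (R : ℝ) ^ 47) ^ (1 / 12 : ℝ) :=
          Real.rpow_le_rpow (by positivity) hA12 (by norm_num)
      _ = K ^ (1 / 12 : ℝ) * (R : ℝ) ^ (4 - 1 / 12 : ℝ) := by
          rw [Real.mul_rpow hK0 (by positivity), ← Real.rpow_natCast (R : ℝ) 47,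
            ← Real.rpow_mul hR0]
          norm_num
  have hsum : ∑ y ∈ Y, |∑ x ∈ X, (qs x y : ℝ)| ≤ A + Y.card := by
    have : (Y.card : ℝ) = ∑ y ∈ Y, (1 : ℝ) := by simp
    rw [this, hA, ← Finset.sum_add_distrib]
    apply Finset.sum_le_sum
    intro y hy
    have hone : |((qs 0 y : ℤ) : ℝ)| ≤ 1 := by
      rcases hval 0 y hy with h | h | h <;> rw [h] <;> norm_num
    by_cases h0 : (0 : Zs) ∈ X
    · rw [← Finset.add_sum_erase X _ h0]
      refine (abs_add_le _ _).trans ?_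
      simp only [one_mul]
      linarith
    · rw [hX', Finset.erase_eq_of_notMem h0]
      simp only [one_mul]
      linarith
  refine hsum.trans ?_
  have hlast : (Y.card : ℝ) ≤ 9 * (R : ℝ) ^ (4 - 1 / 12 : ℝ) := by
    refine hYc.trans ?_
    refine mul_le_mul_of_nonneg_left ?_ (by norm_num)
    rw [← Real.rpow_natCast]
    apply Real.rpow_le_rpow_of_exponent_le hR1
    norm_num
  calc A + Y.card ≤ K ^ (1 / 12 : ℝ) * (R : ℝ) ^ (4 - 1 / 12 : ℝ) + 9 * (R : ℝ) ^ (4 - 1 / 12 : ℝ) :=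
        add_le_add hAf hlast
    _ = _ := by ring

end Pool.Agent.TM32
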