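import Pool.Agent.Lib_helper96.TM32.BilCore
import Pool.Agent.Lib_helper96.TM32.Coord
import Pool.Agent.Lib_helper20.TM32.T1
import Pool.Agent.Lib_helper37.TM32.D1

set_option autoImplicit false

namespace Pool.Agent.TM32

open Finset Zsqrtd

theorem B2_fin (B : ℕ) : ∃ S : Finset Z8, ∀ x : Z8, x ≠ 0 → (N8 x).natAbs ≤ B →
    ∃ y ∈ S, Associated x y := by
  classical
  have hf : ∀ n : ℕ, 0 < n → {a : Associates Z8 | a ∣ Associates.mk ((n : ℕ) : Z8)}.Finite := by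
    intro n hn
    have h0 : Associates.mk ((n : ℕ) : Z8) ≠ 0 := by
      rw [Ne, Associates.mk_eq_zero]
      intro h
      have h1 := N8_intCast (n : ℤ)
      rw [Int.cast_natCast, h] at h1
      have h2 : N8 (0 : Z8) = 0 := N8_eq_zero.2 rfl
      rw [h2] at h1
      have h3 : (0 : ℤ) < (n : ℤ) ^ 4 := by positivity
      omega
    let i1 : Fintype (Associates Z8)ˣ := Unique.fintype
    let i2 : Fintype {a : Associates Z8 // a ∣ Associates.mk ((n : ℕ) : Z8)} :=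
      UniqueFactorizationMonoid.fintypeSubtypeDvd (Associates.mk ((n : ℕ) : Z8)) h0
    exact Set.finite_coe_iff.1
      (Finite.of_fintype {a : Associates Z8 // a ∣ Associates.mk ((n : ℕ) : Z8)})
  have hU : (⋃ n ∈ Finset.Icc 1 B, {a : Associates Z8 | a ∣ Associates.mk ((n : ℕ) : Z8)}).Finite :=
    Set.Finite.biUnion (Finset.finite_toSet _) (fun n hn => hf n (by
      have := (Finset.mem_Icc.1 (Finset.mem_coe.1 hn)).1
      omega))
  refine ⟨hU.toFinset.image (fun a : Associates Z8 => (Quot.out a : Z8)), fun x hx hB => ?_⟩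
  have h1 := N8_pos hx
  refine ⟨(fun a : Associates Z8 => (Quot.out a : Z8)) (Associates.mk x), ?_, ?_⟩
  · rw [Finset.mem_image]
    refine ⟨Associates.mk x, ?_, rfl⟩
    rw [Set.Finite.mem_toFinset, Set.mem_iUnion₂]
    refine ⟨(N8 x).natAbs, Finset.mem_Icc.2 ⟨by omega, hB⟩, ?_⟩
    show Associates.mk x ∣ _
    rw [Associates.mk_dvd_mk]
    have : (((N8 x).natAbs : ℕ) : Z8) = ((N8 x : ℤ) : Z8) := by
      conv_rhs => rw [← Int.natAbs_of_nonneg h1.le]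
      rw [Int.cast_natCast]
    rw [this]
    exact dvd_N8 x
  · rw [← Associates.mk_eq_mk_iff_associated]
    exact (Quot.out_eq (Associates.mk x)).symm

theorem B2_div (ε : ℝ) (hε : 0 < ε) : ∃ C : ℝ, 1 ≤ C ∧ ∀ z : Z8, z ≠ 0 → ∀ D : Finset Z8,
    (∀ x ∈ D, x ∣ z) → (∀ x ∈ D, ∀ y ∈ D, Associated x y → x = y) →
      (D.card : ℝ) ≤ C * ((N8 z).natAbs : ℝ) ^ ε := by
  obtain ⟨C, hC⟩ := div_bound (Λ := Z8) (fun z => (N8 z).natAbs)
    (fun x y => by simp only [N8_mul, Int.natAbs_mul])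
    (fun x hx => by have := N8_pos hx; omega)
    (fun x hx => isUnit_iff.2 (by have := N8_nonneg x; omega)) B2_fin ε hε
  refine ⟨max 1 C, le_max_left _ _, fun z hz D hD hD' => ?_⟩
  refine (hC z hz D hD hD').trans ?_
  exact mul_le_mul_of_nonneg_right (le_max_right _ _) (by positivity)

theorem B2_odd {y : Z8} (hy : Wp y) : Odd (N8 y) := by
  obtain ⟨⟨h1, h2⟩, h3⟩ := hy
  obtain ⟨a, ha⟩ : ∃ a, y.re.re = 2 * a + 1 := ⟨y.re.re / 2, by omega⟩
  obtain ⟨b, hb⟩ : ∃ b, y.re.im = 2 * b := ⟨y.re.im / 2, by omega⟩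
  obtain ⟨c, hc⟩ : ∃ c, y.im.re = 2 * c := ⟨y.im.re / 2, by omega⟩
  rw [N8_eq]
  have hg : Odd (gg y) := by
    unfold gg
    rw [ha, hb, hc]
    refine ⟨2 * a ^ 2 + 2 * a - (2 * a + 1) * y.im.im + y.im.im ^ 2 + 2 * (c + b) ^ 2 + 2 * b ^ 2, ?_⟩
    ring
  exact (hg.pow).sub_even ⟨hh y ^ 2, by ring⟩

theorem B2_coord {x : Z8} {M R : ℕ} (hx : N8 x ≤ M) (hg : gg x ^ 2 ≤ 9 * N8 x)
    (hR : 36 * M ≤ R ^ 4) : ∀ i, |e8 x i| ≤ R := by
  have hg0 := gg_nonneg x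
  have key : ∀ t : ℤ, t ^ 2 ≤ 2 * gg x → |t| ≤ R := by
    intro t ht
    have h1 : |t| ^ 4 ≤ (R : ℤ) ^ 4 := by
      have h2 : |t| ^ 4 = (|t| ^ 2) ^ 2 := by ring
      rw [sq_abs] at h2
      have h3 : (t ^ 2) ^ 2 ≤ (2 * gg x) ^ 2 := pow_le_pow_left₀ (sq_nonneg t) ht 2
      have h4 : (36 : ℤ) * M ≤ (R : ℤ) ^ 4 := by exact_mod_cast hR
      rw [h2]
      nlinarith
    exact (pow_le_pow_iff_left₀ (abs_nonneg t) (by positivity) (by norm_num)).1 h1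
  intro i
  fin_cases i
  · apply key
    show x.re.re ^ 2 ≤ _
    unfold gg
    nlinarith [sq_nonneg (x.re.re - 2 * x.im.im), sq_nonneg (x.im.re + x.re.im), sq_nonneg x.re.im]
  · apply key
    show x.re.im ^ 2 ≤ _
    unfold gg
    nlinarith [sq_nonneg (x.re.re - x.im.im), sq_nonneg (x.im.re + x.re.im), sq_nonneg x.re.im,
      sq_nonneg x.im.im]
  · apply key
    show x.im.re ^ 2 ≤ _
    unfold gg
    nlinarith [sq_nonneg (x.re.re - x.im.im), sq_nonneg (x.im.re + 2 * x.re.im), sq_nonneg x.re.im,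
      sq_nonneg x.im.im]
  · apply key
    show x.im.im ^ 2 ≤ _
    unfold gg
    nlinarith [sq_nonneg (x.re.re - x.im.im), sq_nonneg (x.im.re + x.re.im), sq_nonneg x.re.im,
      sq_nonneg x.im.im]

theorem B2_R (M : ℕ) (hM : 1 ≤ M) : ∃ R : ℕ, 0 < R ∧ 36 * M ≤ R ^ 4 ∧ R ^ 4 ≤ 576 * M := by
  classical
  have hex : ∃ R : ℕ, 36 * M ≤ R ^ 4 := ⟨36 * M, by
    calc 36 * M = (36 * M) ^ 1 := (pow_one _).symm
      _ ≤ (36 * M) ^ 4 := Nat.pow_le_pow_right (by omega) (by norm_num)⟩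
  have h1 := Nat.find_spec hex
  set R := Nat.find hex with hR
  have h2 : 2 ≤ R := by
    by_contra hcon
    push Not at hcon
    have : R ^ 4 ≤ 1 ^ 4 := Nat.pow_le_pow_left (by omega) 4
    omega
  have h3 : ¬ 36 * M ≤ (R - 1) ^ 4 := Nat.find_min hex (by omega)
  push Not at h3
  refine ⟨R, by omega, h1, ?_⟩
  have h4 : R ^ 4 ≤ (2 * (R - 1)) ^ 4 := Nat.pow_le_pow_left (by omega) 4
  rw [mul_pow] at h4
  omega

/-- number of elements of norm at most `M`, up to units -/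
theorem B2_card {M d : ℕ} (X : Finset Z8) (h0 : ∀ x ∈ X, x ≠ 0) (hX : ∀ x ∈ X, N8 x ≤ M)
    (hd : ∀ n : ℕ, 0 < n → n ≤ M → ∀ E : Finset Z8, E ⊆ X → (∀ x ∈ E, x ∣ ((n : ℕ) : Z8)) →
      E.card ≤ d) : X.card ≤ M * d := by
  classical
  have hsub : X ⊆ (Finset.Icc 1 M).biUnion (fun n => X.filter (fun x => x ∣ ((n : ℕ) : Z8))) := by
    intro x hx
    rw [Finset.mem_biUnion]
    have h1 := N8_pos (h0 x hx)
    have h2 := hX x hx
    refine ⟨(N8 x).natAbs, Finset.mem_Icc.2 ⟨by omega, by omega⟩, ?_⟩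
    rw [Finset.mem_filter]
    refine ⟨hx, ?_⟩
    have : (((N8 x).natAbs : ℕ) : Z8) = ((N8 x : ℤ) : Z8) := by
      conv_rhs => rw [← Int.natAbs_of_nonneg h1.le]
      rw [Int.cast_natCast]
    rw [this]
    exact dvd_N8 x
  refine (Finset.card_le_card hsub).trans ((Finset.card_biUnion_le).trans ?_)
  have : ∀ n ∈ Finset.Icc 1 M, (X.filter (fun x => x ∣ ((n : ℕ) : Z8))).card ≤ d := by
    intro n hn
    rw [Finset.mem_Icc] at hn
    exact hd n (by omega) hn.2 _ (Finset.filter_subset _ _) (fun x hx => (Finset.mem_filter.1 hx).2)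
  refine (Finset.sum_le_card_nsmul _ _ _ this).trans ?_
  simp

theorem B2_prod {n : ℕ} (v : Fin n → Z8) :
    (N8 (∏ i, v i)).natAbs = ∏ i, (N8 (v i)).natAbs := by
  classical
  have h2 : ∀ s : Finset (Fin n), (N8 (∏ i ∈ s, v i)).natAbs = ∏ i ∈ s, (N8 (v i)).natAbs := by
    intro s
    induction s using Finset.induction_on with
    | empty => simp [N8_one]
    | insert a s ha ih =>
      rw [Finset.prod_insert ha, Finset.prod_insert ha, N8_mul, Int.natAbs_mul, ih]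
  exact h2 _

theorem bil2 (δ : ℝ) (hδ : 0 < δ) : ∃ δ₃ : ℝ, 0 < δ₃ ∧ ∃ C : ℝ, ∀ M K : ℕ, 1 ≤ M → 1 ≤ K →
    ((M : ℝ) * K) ^ δ ≤ M → ((M : ℝ) * K) ^ δ ≤ K → ∀ X Y : Finset Z8,
    (∀ x ∈ X, x ≠ 0 ∧ N8 x ≤ M ∧ gg x ^ 2 ≤ 9 * N8 x) →
    (∀ x ∈ X, ∀ x' ∈ X, Associated x x' → x = x') →
    (∀ y ∈ Y, Wp y ∧ N8 y ≤ K ∧ Squarefree (N8 y)) →
    (∀ y ∈ Y, ∀ y' ∈ Y, Associated y y' → y = y') →
    ∀ α β : Z8 → ℝ, (∀ x, |α x| ≤ 1) → (∀ y, |β y| ≤ 1) →
    |∑ x ∈ X, ∑ y ∈ Y, α x * β y * T x y| ≤ C * ((M : ℝ) * K) ^ (1 - δ₃) := by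
  classical
  -- the parameters
  set l' : ℕ := ⌈4 / δ⌉₊ with hl'
  have hl'1 : 4 / δ ≤ l' := Nat.le_ceil _
  have hl'0 : 0 < l' := by
    rw [hl', Nat.ceil_pos]
    positivity
  set l : ℕ := 2 * l' with hl
  have hl0 : 0 < l := by omega
  have hlR : (0 : ℝ) < l := by exact_mod_cast hl0
  set ε : ℝ := δ / (2 * ((2 * l + 8 : ℕ) : ℝ) * ((8 * l : ℕ) : ℝ)) with hε
  have hε0 : 0 < ε := by
    rw [hε]
    have : (0 : ℝ) < ((2 * l + 8 : ℕ) : ℝ) := by exact_mod_cast (by omega : 0 < 2 * l + 8)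
    have : (0 : ℝ) < ((8 * l : ℕ) : ℝ) := by exact_mod_cast (by omega : 0 < 8 * l)
    positivity
  obtain ⟨C0, hC0, hdiv⟩ := B2_div ε hε0
  set C1 : ℝ := 593 * 12 ^ (8 * l) * 576 ^ (2 * l) * C0 ^ (8 * l) with hC1
  have hC10 : 0 ≤ C1 := by positivity
  refine ⟨δ / (8 * l), by positivity, C1 ^ (1 / (4 * l) : ℝ), ?_⟩
  intro M K hM hK hPM hPK X Y hX hX' hY hY' α β hα hβ
  set P : ℝ := (M : ℝ) * K with hP
  have hM1 : (1 : ℝ) ≤ M := by exact_mod_cast hM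
  have hK1 : (1 : ℝ) ≤ K := by exact_mod_cast hK
  have hP1 : 1 ≤ P := by rw [hP]; nlinarith
  have hP0 : 0 < P := by linarith
  have hMP : (M : ℝ) ≤ P := by rw [hP]; nlinarith
  have hKP : (K : ℝ) ≤ P := by rw [hP]; nlinarith
  set D : ℝ := C0 * (P ^ (2 * l + 8)) ^ ε with hD
  have hD1 : 1 ≤ D := by
    rw [hD]
    have : (1 : ℝ) ≤ (P ^ (2 * l + 8)) ^ ε := Real.one_le_rpow (one_le_pow₀ hP1) hε0.le
    nlinarith
  have hDp : D ^ (8 * l) = C0 ^ (8 * l) * P ^ (δ / 2) := by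
    rw [hD, mul_pow]
    congr 1
    rw [← Real.rpow_natCast _ (8 * l), ← Real.rpow_natCast P (2 * l + 8), ← Real.rpow_mul hP0.le,
      ← Real.rpow_mul hP0.le]
    congr 1
    rw [hε]
    have h1 : ((2 * l + 8 : ℕ) : ℝ) ≠ 0 := by exact_mod_cast (by omega : 2 * l + 8 ≠ 0)
    have h2 : ((8 * l : ℕ) : ℝ) ≠ 0 := by exact_mod_cast (by omega : 8 * l ≠ 0)
    field_simp
  -- the divisor bound
  have hdv : ∀ z : Z8, z ≠ 0 → ((N8 z).natAbs : ℝ) ≤ P ^ (2 * l + 8) → ∀ E : Finset Z8,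
      (∀ x ∈ E, x ∣ z) → (∀ x ∈ E, ∀ y ∈ E, Associated x y → x = y) → E.card ≤ ⌊D⌋₊ := by
    intro z hz hzq E hE hE'
    apply Nat.le_floor
    refine (hdiv z hz E hE hE').trans ?_
    rw [hD]
    refine mul_le_mul_of_nonneg_left ?_ (by linarith)
    exact Real.rpow_le_rpow (by positivity) hzq hε0.le
  set d : ℕ := ⌊D⌋₊ with hd
  have hdD : (d : ℝ) ≤ D := Nat.floor_le (by linarith)
  have hd1 : (1 : ℝ) ≤ d := by
    have : 1 ≤ d := Nat.le_floor (by exact_mod_cast hD1)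
    exact_mod_cast this
  -- natural numbers as divisors' multiples
  have hnat : ∀ n j : ℕ, 0 < n → (n : ℝ) ≤ P → 4 * j ≤ 2 * l + 8 → ((n ^ j : ℕ) : Z8) ≠ 0 ∧
      ((N8 ((n ^ j : ℕ) : Z8)).natAbs : ℝ) ≤ P ^ (2 * l + 8) := by
    intro n j hn hnP hj
    have h1 : N8 ((n ^ j : ℕ) : Z8) = ((n ^ j : ℕ) : ℤ) ^ 4 := by
      have := N8_intCast ((n ^ j : ℕ) : ℤ)
      rwa [Int.cast_natCast] at this
    constructor
    · intro h
      rw [h, N8_eq_zero.2 rfl] at h1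
      have h2 : (0 : ℤ) < ((n ^ j : ℕ) : ℤ) ^ 4 := by positivity
      omega
    · rw [h1]
      have h3 : ((((n ^ j : ℕ) : ℤ) ^ 4).natAbs : ℝ) = (n : ℝ) ^ (4 * j) := by
        have : (((n ^ j : ℕ) : ℤ) ^ 4).natAbs = n ^ (4 * j) := by
          rw [Int.natAbs_pow, Int.natAbs_natCast, ← pow_mul]
          ring_nf
        rw [this]
        push_cast
        rfl
      rw [h3]
      calc (n : ℝ) ^ (4 * j) ≤ P ^ (4 * j) := pow_le_pow_left₀ (by positivity) hnP _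
        _ ≤ P ^ (2 * l + 8) := pow_le_pow_right₀ hP1 hj
  obtain ⟨R, hR0, hR1, hR2⟩ := B2_R M hM
  set S : ℕ := 12 ^ (2 * l) * R ^ (2 * l) with hS
  -- `K ^ 4 ≤ S`
  have hKS : K ^ 4 ≤ S := by
    have h1 : (P : ℝ) ^ 4 ≤ (M : ℝ) ^ l' := by
      calc P ^ 4 = (P ^ δ) ^ (4 / δ) := by
            rw [← Real.rpow_mul hP0.le, mul_div_cancel₀ _ hδ.ne', ← Real.rpow_natCast]
            norm_num
        _ ≤ (M : ℝ) ^ (4 / δ) := Real.rpow_le_rpow (by positivity) hPM (by positivity)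
        _ ≤ (M : ℝ) ^ (l' : ℝ) := Real.rpow_le_rpow_of_exponent_le hM1 hl'1
        _ = (M : ℝ) ^ l' := Real.rpow_natCast _ _
    have h2 : (K : ℝ) ^ 4 ≤ (M : ℝ) ^ l' :=
      (pow_le_pow_left₀ (by positivity) hKP 4).trans h1
    have h3 : K ^ 4 ≤ M ^ l' := by exact_mod_cast h2
    calc K ^ 4 ≤ M ^ l' := h3
      _ ≤ (R ^ 4) ^ l' := Nat.pow_le_pow_left (by omega) _
      _ = R ^ (2 * l) := by rw [← pow_mul, hl]; congr 1; ring
      _ = 1 * R ^ (2 * l) := (one_mul _).symm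
      _ ≤ S := Nat.mul_le_mul_right _ (Nat.one_le_pow _ _ (by norm_num))
  have hprop : ∀ y ∈ Y, Wp y ∧ IsCoprime y.re y.im := fun y hy =>
    ⟨(hY y hy).1, sqf_coprime (hY y hy).2.2⟩
  have hYne : ∀ y ∈ Y, y ≠ 0 := by
    rintro y hy rfl
    have h1 := (hY 0 hy).2.2
    rw [N8_eq_zero.2 rfl] at h1
    exact not_squarefree_zero h1
  have hcore := bil_core 4 (by norm_num) e8 12 e8_mul (fun z => (N8 z).natAbs)
    (fun x y => T x y) Y K
    (fun x y hy => T_val x (hprop y hy).1 (hprop y hy).2)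
    (fun x x' y hy => T_mul x x' (hprop y hy).1 (hprop y hy).2)
    (fun x x' y hy => T_per x x' (hprop y hy).1 (hprop y hy).2)
    (fun u y hy => T_int u (hprop y hy).1 (hprop y hy).2)
    (by
      intro y hy
      have h1 := N8_nonneg y
      have h2 := (hY y hy).2.1
      refine ⟨?_, ?_, ?_⟩
      · show Odd (N8 y).natAbs
        exact Int.natAbs_odd.2 (B2_odd (hprop y hy).1)
      · show (N8 y).natAbs ≤ K
        omega
      · have : (((N8 y).natAbs : ℕ) : Z8) = ((N8 y : ℤ) : Z8) := by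
          conv_rhs => rw [← Int.natAbs_of_nonneg h1]
          rw [Int.cast_natCast]
        show y ∣ (((N8 y).natAbs : ℕ) : Z8)
        rw [this]
        exact dvd_N8 y)
    l hl0 X R hR0
    (fun x hx => B2_coord (hX x hx).2.1 (hX x hx).2.2 hR1)
    α hα d
    (by
      intro v hv E hEX hE
      refine hdv _ ?_ ?_ E hE (fun x hx y hy => hX' x (hEX hx) y (hEX hy))
      · rw [Finset.prod_ne_zero_iff]
        intro i _
        exact (hX _ (hv i)).1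
      · rw [B2_prod]
        have h1 : ∏ i, (N8 (v i)).natAbs ≤ M ^ (2 * l) := by
          refine (Finset.prod_le_pow_card _ _ M ?_).trans ?_
          · intro i _
            have h2 := (hX _ (hv i)).2.1
            have h3 := N8_nonneg (v i)
            omega
          · simp
        have h2 : ((∏ i, (N8 (v i)).natAbs : ℕ) : ℝ) ≤ (M : ℝ) ^ (2 * l) := by exact_mod_cast h1
        refine h2.trans ?_
        calc (M : ℝ) ^ (2 * l) ≤ P ^ (2 * l) := pow_le_pow_left₀ (by positivity) hMP _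
          _ ≤ P ^ (2 * l + 8) := pow_le_pow_right₀ hP1 (by omega))
    (by
      intro m hm hmq E hEY hE
      have h1 := hnat m 2 hm ((by exact_mod_cast hmq : (m : ℝ) ≤ K).trans hKP) (by omega)
      exact hdv _ h1.1 h1.2 E hE (fun x hx y hy => hY' x (hEY hx) y (hEY hy)))
    S hS
    (by
      refine le_trans ?_ hKS
      exact Nat.pow_le_pow_right hK (by norm_num))
  have hXc : (X.card : ℝ) ≤ M * d := by
    have : X.card ≤ M * d := B2_card X (fun x hx => (hX x hx).1) (fun x hx => (hX x hx).2.1) (by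
      intro n hn hnM E hEX hE
      have h1 := hnat n 1 hn ((by exact_mod_cast hnM : (n : ℝ) ≤ M).trans hMP) (by omega)
      rw [pow_one] at h1
      exact hdv _ h1.1 h1.2 E hE (fun x hx y hy => hX' x (hEX hx) y (hEX hy)))
    exact_mod_cast this
  have hYc : (Y.card : ℝ) ≤ K * d := by
    have : Y.card ≤ K * d := B2_card Y hYne (fun y hy => (hY y hy).2.1) (by
      intro n hn hnM E hEX hE
      have h1 := hnat n 1 hn ((by exact_mod_cast hnM : (n : ℝ) ≤ K).trans hKP) (by omega)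
      rw [pow_one] at h1
      exact hdv _ h1.1 h1.2 E hE (fun x hx y hy => hY' x (hEX hx) y (hEX hy)))
    exact_mod_cast this
  set A : ℝ := ∑ y ∈ Y, |∑ x ∈ X, α x * (T x y : ℝ)| with hA
  have hA0 : 0 ≤ A := Finset.sum_nonneg (fun _ _ => abs_nonneg _)
  have hSR : (K : ℝ) ^ 4 ≤ S := by exact_mod_cast hKS
  have hS4 : (S : ℝ) ^ 4 ≤ 12 ^ (8 * l) * (576 ^ (2 * l) * (M : ℝ) ^ (2 * l)) := by
    have h1 : S ^ 4 ≤ 12 ^ (8 * l) * (576 ^ (2 * l) * M ^ (2 * l)) := by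
      calc S ^ 4 = 12 ^ (8 * l) * (R ^ 4) ^ (2 * l) := by
            rw [hS, mul_pow, ← pow_mul, ← pow_mul, ← pow_mul]
            congr 2 <;> ring
        _ ≤ 12 ^ (8 * l) * (576 * M) ^ (2 * l) :=
            Nat.mul_le_mul_left _ (Nat.pow_le_pow_left hR2 _)
        _ = _ := by rw [mul_pow]
    exact_mod_cast h1
  have hS0 : (0 : ℝ) ≤ S := by positivity
  have hbr : ((K : ℝ) * (d : ℝ) ^ 2) * (3 * S : ℝ) ^ 4 +
      (K * d : ℝ) ^ 2 * (2 * (4 : ℕ) * (K : ℝ) ^ 2 * (4 * S : ℝ) ^ (4 - 1)) ≤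
      593 * (K * (d : ℝ) ^ 2) * (S : ℝ) ^ 4 := by
    have h1 : (K : ℝ) ^ 3 ≤ S := by
      refine le_trans ?_ hSR
      exact pow_le_pow_right₀ hK1 (by norm_num)
    have h2 : (K : ℝ) * (d : ℝ) ^ 2 * (K : ℝ) ^ 3 * (S : ℝ) ^ 3 ≤
        (K : ℝ) * (d : ℝ) ^ 2 * S * (S : ℝ) ^ 3 := by gcongr
    norm_num only
    nlinarith
  have hmain : A ^ (4 * l) * P ^ δ ≤ C1 * P ^ (δ / 2) * P ^ (4 * l) := by
    have hK0 : (0 : ℝ) < K := by linarith
    calc A ^ (4 * l) * P ^ δ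
        ≤ ((K * d : ℝ) ^ (4 * l - 2) * ((d : ℝ) ^ (2 * l) * (M * d : ℝ) ^ (2 * l)) *
          (((K : ℝ) * (d : ℝ) ^ 2) * (3 * S : ℝ) ^ 4 +
      (K * d : ℝ) ^ 2 * (2 * (4 : ℕ) * (K : ℝ) ^ 2 * (4 * S : ℝ) ^ (4 - 1)))) * K := by
          refine mul_le_mul ?_ hPK (by positivity) (by positivity)
          refine hcore.trans ?_
          gcongr
      _ ≤ ((K * d : ℝ) ^ (4 * l - 2) * ((d : ℝ) ^ (2 * l) * (M * d : ℝ) ^ (2 * l)) *
          (593 * (K * (d : ℝ) ^ 2) * (12 ^ (8 * l) * (576 ^ (2 * l) * (M : ℝ) ^ (2 * l))))) * K := by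
          refine mul_le_mul_of_nonneg_right ?_ hK0.le
          refine mul_le_mul_of_nonneg_left ?_ (by positivity)
          refine hbr.trans ?_
          exact mul_le_mul_of_nonneg_left hS4 (by positivity)
      _ = (593 * 12 ^ (8 * l) * 576 ^ (2 * l)) * (d : ℝ) ^ (8 * l) * P ^ (4 * l) := by
          obtain ⟨k, hk⟩ : ∃ k, 4 * l = k + 2 := ⟨4 * l - 2, by omega⟩
          have e1 : 4 * l - 2 = k := by omega
          have e2 : 8 * l = k + 2 * l + 2 * l + 2 := by omega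
          have e3 : (M : ℝ) ^ (4 * l) = (M : ℝ) ^ (2 * l) * (M : ℝ) ^ (2 * l) := by
            rw [← pow_add]; congr 1; ring
          have e4 : (K : ℝ) ^ (4 * l) = (K : ℝ) ^ k * (K : ℝ) ^ 2 := by rw [hk, pow_add]
          have e5 : (d : ℝ) ^ (8 * l) = (d : ℝ) ^ k * (d : ℝ) ^ (2 * l) * (d : ℝ) ^ (2 * l) *
              (d : ℝ) ^ 2 := by rw [e2]; simp only [pow_add]
          rw [e1, hP, mul_pow (M : ℝ) (K : ℝ) (4 * l), e3, e4, e5, mul_pow, mul_pow]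
          ring
      _ ≤ (593 * 12 ^ (8 * l) * 576 ^ (2 * l)) * D ^ (8 * l) * P ^ (4 * l) := by
          gcongr
      _ = C1 * P ^ (δ / 2) * P ^ (4 * l) := by
          rw [hDp, hC1]; ring
  have hmain2 : A ^ (4 * l) ≤ C1 * P ^ ((4 * l : ℕ) - δ / 2 : ℝ) := by
    have h1 : 0 < P ^ δ := Real.rpow_pos_of_pos hP0 _
    have h3 : P ^ (δ / 2) * P ^ (4 * l) = P ^ ((4 * l : ℕ) - δ / 2 : ℝ) * P ^ δ := by
      rw [← Real.rpow_natCast P (4 * l), ← Real.rpow_add hP0, ← Real.rpow_add hP0]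
      congr 1
      ring
    have h2 : C1 * P ^ (δ / 2) * P ^ (4 * l) = (C1 * P ^ ((4 * l : ℕ) - δ / 2 : ℝ)) * P ^ δ := by
      calc C1 * P ^ (δ / 2) * P ^ (4 * l) = C1 * (P ^ (δ / 2) * P ^ (4 * l)) := by ring
        _ = C1 * (P ^ ((4 * l : ℕ) - δ / 2 : ℝ) * P ^ δ) := by rw [h3]
        _ = _ := by ring
    rw [h2] at hmain
    exact le_of_mul_le_mul_right hmain h1
  have hfin : A ≤ C1 ^ (1 / (4 * l) : ℝ) * P ^ (1 - δ / (8 * l)) := by
    have h1 : A = (A ^ (4 * l)) ^ (1 / (4 * l) : ℝ) := by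
      rw [← Real.rpow_natCast, ← Real.rpow_mul hA0]
      push_cast
      rw [mul_one_div_cancel (by positivity), Real.rpow_one]
    rw [h1]
    calc (A ^ (4 * l)) ^ (1 / (4 * l) : ℝ)
        ≤ (C1 * P ^ ((4 * l : ℕ) - δ / 2 : ℝ)) ^ (1 / (4 * l) : ℝ) :=
          Real.rpow_le_rpow (by positivity) hmain2 (by positivity)
      _ = C1 ^ (1 / (4 * l) : ℝ) * P ^ (1 - δ / (8 * l)) := by
          rw [Real.mul_rpow hC10 (by positivity), ← Real.rpow_mul hP0.le]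
          congr 2
          push_cast
          field_simp
          ring
  refine le_trans ?_ hfin
  have hsw : ∑ x ∈ X, ∑ y ∈ Y, α x * β y * (T x y : ℝ) =
      ∑ y ∈ Y, β y * ∑ x ∈ X, α x * (T x y : ℝ) := by
    rw [Finset.sum_comm]
    apply Finset.sum_congr rfl
    intro y _
    rw [Finset.mul_sum]
    apply Finset.sum_congr rfl
    intro x _
    ring
  rw [hsw]
  refine (Finset.abs_sum_le_sum_abs _ _).trans ?_
  apply Finset.sum_le_sum
  intro y _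
  rw [abs_mul]
  have := hβ y
  have h2 := abs_nonneg (∑ x ∈ X, α x * (T x y : ℝ))
  nlinarith

end Pool.Agent.TM32
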