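import Pool.Agent.Lib_helper96.TM32.H1

set_option autoImplicit false

namespace Pool.Agent.TM32

open Finset

private theorem BC_ex {D : ℕ} (hD : Odd D) (hns : ¬ IsSquare D) :
    ∃ x : ℕ, jacobiSym (x : ℤ) D = -1 := by
  have hD0 : D ≠ 0 := by rintro rfl; exact absurd hD (by decide)
  obtain ⟨a, b, hab, ha⟩ := Nat.sq_mul_squarefree D
  have ha1 : a ≠ 1 := by
    rintro rfl
    apply hns
    rw [mul_one] at hab
    exact ⟨b, by rw [← hab, pow_two]⟩
  obtain ⟨p, hp, hpa⟩ := Nat.exists_prime_and_dvd ha1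
  obtain ⟨a', rfl⟩ := hpa
  have hpa' : Nat.Coprime p a' := (Nat.squarefree_mul_iff.1 ha).1
  have hb0 : b ≠ 0 := by rintro rfl; apply hD0; rw [← hab]; simp
  have ha'0 : a' ≠ 0 := by rintro rfl; apply hD0; rw [← hab]; simp
  have hpD : p ∣ D := ⟨b ^ 2 * a', by rw [← hab]; ring⟩
  have hp2 : p ≠ 2 := by
    rintro rfl
    exact (Nat.not_even_iff_odd.2 hD) (even_iff_two_dvd.2 hpD)
  have hfp : Fact p.Prime := ⟨hp⟩
  obtain ⟨e, E, hE, hDE⟩ := Nat.exists_eq_pow_mul_and_not_dvd hD0 p hp.ne_one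
  have hcop : Nat.Coprime p E := (Nat.Prime.coprime_iff_not_dvd hp).2 hE
  have ha'E : a' ∣ E := by
    have h1 : a' ∣ p ^ e * E := by
      rw [← hDE, ← hab]
      exact ⟨b ^ 2 * p, by ring⟩
    exact (Nat.Coprime.pow_right e hpa'.symm).dvd_of_dvd_mul_left h1
  obtain ⟨r, hr⟩ := FiniteField.exists_nonsquare (F := ZMod p) (by
    rw [ZMod.ringChar_zmod_n]
    exact hp2)
  obtain ⟨x, hx1, hx2⟩ := Nat.chineseRemainder hcop r.val 1
  have hxp : jacobiSym (x : ℤ) p = -1 := by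
    rw [← jacobiSym.legendreSym.to_jacobiSym, legendreSym.eq_neg_one_iff]
    have : (x : ZMod p) = r := by
      have h3 := (ZMod.natCast_eq_natCast_iff _ _ _).2 hx1
      rw [h3, ZMod.natCast_zmod_val]
    push_cast
    rwa [this]
  have hxa' : jacobiSym (x : ℤ) a' = 1 := by
    have h4 : x ≡ 1 [MOD a'] := hx2.of_dvd ha'E
    rw [jacobiSym.mod_left' (a₂ := 1), jacobiSym.one_left]
    exact_mod_cast h4
  have hxcp : Nat.Coprime x p := by
    by_contra hcon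
    have h5 : p ∣ x := by
      rcases (Nat.coprime_or_dvd_of_prime hp x) with h | h
      · exact absurd h.symm hcon
      · exact h
    have h6 : jacobiSym (x : ℤ) p = 0 := by
      rw [jacobiSym.eq_zero_iff]
      refine ⟨hp.ne_zero, fun h7 => hcon ?_⟩
      rw [Int.gcd_natCast_natCast] at h7
      exact h7
    rw [h6] at hxp
    exact absurd hxp (by decide)
  have hxcE : Nat.Coprime x E := by
    have : Nat.gcd x E = Nat.gcd 1 E := Nat.ModEq.gcd_eq hx2
    rw [Nat.Coprime, this, Nat.gcd_one_left]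
  have hxcD : Nat.Coprime x D := by
    rw [hDE]
    exact Nat.Coprime.mul_right (Nat.Coprime.pow_right e hxcp) hxcE
  have hxb : jacobiSym (x : ℤ) (b ^ 2) = 1 := by
    rw [jacobiSym.pow_right]
    apply jacobiSym.sq_one
    rw [Int.gcd_natCast_natCast]
    refine Nat.Coprime.coprime_dvd_right ?_ hxcD
    exact ⟨b * (p * a'), by rw [← hab]; ring⟩
  refine ⟨x, ?_⟩
  rw [← hab, jacobiSym.mul_right' _ (pow_ne_zero 2 hb0) (mul_ne_zero hp.ne_zero ha'0),
    jacobiSym.mul_right' _ hp.ne_zero ha'0, hxb, hxp, hxa']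
  norm_num

/-- the bilinear bound with divisor bound `d` -/
theorem bil_core {Λ : Type} [CommRing Λ] [NoZeroDivisors Λ] [DecidableEq Λ]
    (r : ℕ) (hr : 0 < r) (e : Λ ≃+ (Fin r → ℤ)) (c : ℕ)
    (hmul : ∀ (x y : Λ) (R R' : ℕ), (∀ i, |e x i| ≤ R) → (∀ i, |e y i| ≤ R') →
      ∀ i, |e (x * y) i| ≤ c * R * R')
    (N : Λ → ℕ) (T : Λ → Λ → ℤ) (Y : Finset Λ) (q : ℕ)
    (hT : ∀ x, ∀ y ∈ Y, T x y = 0 ∨ T x y = 1 ∨ T x y = -1)
    (hTm : ∀ x x', ∀ y ∈ Y, T (x * x') y = T x y * T x' y)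
    (hTp : ∀ x x', ∀ y ∈ Y, T (x + (N y : Λ) * x') y = T x y)
    (hTi : ∀ u : ℤ, ∀ y ∈ Y, T (u : Λ) y = jacobiSym u (N y))
    (hN : ∀ y ∈ Y, Odd (N y) ∧ N y ≤ q ∧ y ∣ (N y : Λ))
    (l : ℕ) (hl : 0 < l) (X : Finset Λ) (R : ℕ) (hR : 0 < R) (hX : ∀ x ∈ X, ∀ i, |e x i| ≤ R)
    (α : Λ → ℝ) (hα : ∀ x, |α x| ≤ 1) (d : ℕ)
    (hdX : ∀ v : Fin (2 * l) → Λ, (∀ i, v i ∈ X) →
      ∀ D : Finset Λ, D ⊆ X → (∀ x ∈ D, x ∣ ∏ i, v i) → D.card ≤ d)
    (hdY : ∀ m : ℕ, 0 < m → m ≤ q →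
      ∀ D : Finset Λ, D ⊆ Y → (∀ y ∈ D, y ∣ ((m ^ 2 : ℕ) : Λ)) → D.card ≤ d)
    (S : ℕ) (hS : S = c ^ (2 * l) * R ^ (2 * l)) (hqS : q ^ 2 ≤ S) :
    (∑ y ∈ Y, |∑ x ∈ X, α x * T x y|) ^ (4 * l) ≤
      (Y.card : ℝ) ^ (4 * l - 2) * ((d : ℝ) ^ (2 * l) * (X.card : ℝ) ^ (2 * l)) *
        ((q * d ^ 2 : ℝ) * (3 * S : ℝ) ^ r +
          (Y.card : ℝ) ^ 2 * (2 * r * q ^ 2 * (4 * S : ℝ) ^ (r - 1))) := by
  classical
  set bad : Finset (Λ × Λ) := (Y ×ˢ Y).filter (fun p => IsSquare (N p.1 * N p.2)) with hbad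
  have hbc : bad.card ≤ q * d ^ 2 := by
    have hsub : bad ⊆ (Finset.Icc 1 q).biUnion (fun m =>
        (Y.filter (fun y => y ∣ ((m ^ 2 : ℕ) : Λ))) ×ˢ
          (Y.filter (fun y => y ∣ ((m ^ 2 : ℕ) : Λ)))) := by
      rintro ⟨y, y'⟩ hp
      rw [hbad, Finset.mem_filter, Finset.mem_product] at hp
      obtain ⟨⟨hy, hy'⟩, m, hm⟩ := hp
      simp only at hy hy' hm
      have h1 := hN y hy
      have h2 := hN y' hy'
      have hp1 : 0 < N y := h1.1.pos
      have hp2 : 0 < N y' := h2.1.pos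
      have hm0 : 0 < m := by
        rcases Nat.eq_zero_or_pos m with h | h
        · rw [h] at hm
          have := Nat.mul_pos hp1 hp2
          omega
        · exact h
      have hmq : m ≤ q := by
        by_contra hcon
        push Not at hcon
        have a1 : N y * N y' ≤ q * q := Nat.mul_le_mul h1.2.1 h2.2.1
        have a2 : q * q < m * m := Nat.mul_lt_mul'' hcon hcon
        omega
      rw [Finset.mem_biUnion]
      refine ⟨m, Finset.mem_Icc.2 ⟨hm0, hmq⟩, ?_⟩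
      have e1 : ((m ^ 2 : ℕ) : Λ) = (N y : Λ) * (N y' : Λ) := by
        rw [pow_two, ← hm]; push_cast; rfl
      rw [Finset.mem_product, Finset.mem_filter, Finset.mem_filter]
      refine ⟨⟨hy, ?_⟩, hy', ?_⟩
      · show y ∣ ((m ^ 2 : ℕ) : Λ)
        rw [e1]; exact h1.2.2.mul_right _
      · show y' ∣ ((m ^ 2 : ℕ) : Λ)
        rw [e1]; exact h2.2.2.mul_left _
    refine (Finset.card_le_card hsub).trans ?_
    refine (Finset.card_biUnion_le).trans ?_
    have : ∀ m ∈ Finset.Icc 1 q, ((Y.filter (fun y => y ∣ ((m ^ 2 : ℕ) : Λ))) ×ˢ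
        (Y.filter (fun y => y ∣ ((m ^ 2 : ℕ) : Λ)))).card ≤ d ^ 2 := by
      intro m hm
      rw [Finset.mem_Icc] at hm
      have h1 := hdY m (by omega) hm.2 (Y.filter (fun y => y ∣ ((m ^ 2 : ℕ) : Λ)))
        (Finset.filter_subset _ _) (fun y hy => (Finset.mem_filter.1 hy).2)
      rw [Finset.card_product, ← pow_two]
      exact Nat.pow_le_pow_left h1 2
    refine (Finset.sum_le_card_nsmul _ _ _ this).trans ?_
    simp
  have horth : ∀ y ∈ Y, ∀ y' ∈ Y, (y, y') ∉ bad →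
      ∃ u : ℤ, IsCoprime u ((N y * N y' : ℕ) : ℤ) ∧ T (u : Λ) y * T (u : Λ) y' = -1 := by
    intro y hy y' hy' hb
    have h1 := hN y hy
    have h2 := hN y' hy'
    have hns : ¬ IsSquare (N y * N y') := by
      intro h
      apply hb
      rw [hbad, Finset.mem_filter, Finset.mem_product]
      exact ⟨⟨hy, hy'⟩, h⟩
    obtain ⟨x, hx⟩ := BC_ex (h1.1.mul h2.1) hns
    refine ⟨x, ?_, ?_⟩
    · rw [Int.isCoprime_iff_gcd_eq_one]
      by_contra hcon
      have : jacobiSym (x : ℤ) (N y * N y') = 0 := by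
        rw [jacobiSym.eq_zero_iff]
        exact ⟨(h1.1.mul h2.1).pos.ne', hcon⟩
      rw [this] at hx
      exact absurd hx (by decide)
    · rw [hTi _ y hy, hTi _ y' hy', ← jacobiSym.mul_right' _ h1.1.pos.ne' h2.1.pos.ne']
      exact hx
  have hτ : ∀ z : Λ, ((Fintype.piFinset (fun _ : Fin (2 * l) => X)).filter
      (fun v => ∏ i, v i = z)).card ≤ d ^ (2 * l) := by
    intro z
    by_cases hemp : ((Fintype.piFinset (fun _ : Fin (2 * l) => X)).filter
      (fun v => ∏ i, v i = z)).Nonempty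
    · obtain ⟨v0, hv0⟩ := hemp
      rw [Finset.mem_filter, Fintype.mem_piFinset] at hv0
      have hsub : (Fintype.piFinset (fun _ : Fin (2 * l) => X)).filter (fun v => ∏ i, v i = z) ⊆
          Fintype.piFinset (fun _ : Fin (2 * l) => X.filter (fun x => x ∣ z)) := by
        intro v hv
        rw [Finset.mem_filter, Fintype.mem_piFinset] at hv
        rw [Fintype.mem_piFinset]
        intro i
        rw [Finset.mem_filter]
        refine ⟨hv.1 i, ?_⟩
        rw [← hv.2]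
        exact Finset.dvd_prod_of_mem _ (Finset.mem_univ i)
      refine (Finset.card_le_card hsub).trans ?_
      rw [Fintype.card_piFinset, Finset.prod_const, Finset.card_univ, Fintype.card_fin]
      refine Nat.pow_le_pow_left ?_ _
      refine hdX v0 hv0.1 _ (Finset.filter_subset _ _) (fun x hx => ?_)
      rw [hv0.2]
      exact (Finset.mem_filter.1 hx).2
    · rw [Finset.not_nonempty_iff_eq_empty] at hemp
      rw [hemp]
      simp
  have h := holder_box r hr e c hmul T Y N q bad hT hTm hTp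
    (fun y hy => ⟨(hN y hy).1.pos, (hN y hy).2.1⟩) horth l hl X R hR hX α hα (d ^ (2 * l)) hτ S hS hqS
  refine h.trans ?_
  have hbR : (bad.card : ℝ) ≤ q * d ^ 2 := by exact_mod_cast hbc
  push_cast
  gcongr

end Pool.Agent.TM32
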