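import Pool.Agent.Lib_helper51.TM32.Defs

set_option autoImplicit false

namespace Pool.Agent.TM32

open Finset

/-! ### complete sums over boxes -/

private lemma H1_card_res (Q : ℕ) [NeZero Q] (c : ZMod Q) (a : ℤ) :
    ((Ico a (a + Q)).filter (fun k : ℤ => (k : ZMod Q) = c)).card = 1 := by
  have hQ : 0 < (Q : ℤ) := by exact_mod_cast Nat.pos_of_ne_zero (NeZero.ne Q)
  have h1 : (Ico a (a + Q)).filter (fun k : ℤ => (k : ZMod Q) = c) =
      (Ico a (a + Q)).filter (fun k : ℤ => k ≡ (c.val : ℤ) [ZMOD (Q : ℤ)]) := by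
    apply Finset.filter_congr
    intro k _
    rw [← ZMod.intCast_eq_intCast_iff]
    simp
  rw [h1]
  have h2 : ((((Ico a (a + Q)).filter (fun k : ℤ => k ≡ (c.val : ℤ) [ZMOD (Q : ℤ)])).card : ℕ) : ℤ)
      = 1 := by
    rw [Int.Ico_filter_modEq_card _ _ hQ]
    have hq : (Q : ℚ) ≠ 0 := by exact_mod_cast NeZero.ne Q
    have : (((a + (Q : ℤ) : ℤ) : ℚ) - ((c.val : ℤ) : ℚ)) / ((Q : ℤ) : ℚ)
        = ((a : ℚ) - ((c.val : ℤ) : ℚ)) / ((Q : ℤ) : ℚ) + 1 := by
      push_cast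
      field_simp
      ring
    rw [this, Int.ceil_add_one]
    simp
  exact_mod_cast h2

private lemma H1_card_res_mul (Q : ℕ) [NeZero Q] (c : ZMod Q) (a : ℤ) (m : ℕ) :
    ((Ico a (a + m * Q)).filter (fun k : ℤ => (k : ZMod Q) = c)).card = m := by
  induction m with
  | zero => simp
  | succ m ih =>
    have hu : Ico a (a + ((m + 1 : ℕ) : ℤ) * Q) =
        Ico a (a + m * Q) ∪ Ico (a + m * Q) (a + m * Q + Q) := by
      rw [Ico_union_Ico_eq_Ico]
      · congr 1; push_cast; ring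
      · have : (0 : ℤ) ≤ m * Q := by positivity
        linarith
      · have : (0 : ℤ) ≤ Q := by positivity
        linarith
    rw [hu, filter_union, card_union_of_disjoint, ih, H1_card_res]
    apply disjoint_filter_filter
    rw [Finset.disjoint_left]
    intro x hx hx'
    rw [mem_Ico] at hx hx'
    omega

private lemma H1_box_sum {r : ℕ} (g : (Fin r → ℤ) → ℤ) (Q : ℕ) (hQ : 0 < Q)
    (hg : ∀ n n' : Fin r → ℤ, (∀ i, (Q : ℤ) ∣ n i - n' i) → g n = g n')
    (hneg : ∃ u : ℤ, IsCoprime u (Q : ℤ) ∧ ∀ n, g (fun i => u * n i) = - g n)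
    (a : ℤ) (m : ℕ) :
    ∑ n ∈ Fintype.piFinset (fun _ : Fin r => Ico a (a + m * Q)), g n = 0 := by
  classical
  have : NeZero Q := ⟨hQ.ne'⟩
  set G : (Fin r → ZMod Q) → ℤ := fun c => g (fun i => ((c i).val : ℤ)) with hGdef
  have hG : ∀ n : Fin r → ℤ, g n = G (fun i => (n i : ZMod Q)) := by
    intro n
    apply hg
    intro i
    rw [← ZMod.intCast_zmod_eq_zero_iff_dvd]
    simp
  have hsum : ∑ c : Fin r → ZMod Q, G c = 0 := by
    obtain ⟨u, hu, hun⟩ := hneg
    have hunit : IsUnit ((u : ℤ) : ZMod Q) := by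
      obtain ⟨x, y, hxy⟩ := hu
      refine IsUnit.of_mul_eq_one (x : ZMod Q) ?_
      have := congrArg (fun t : ℤ => (t : ZMod Q)) hxy
      push_cast at this
      simpa [mul_comm] using this
    obtain ⟨U, hU⟩ := hunit
    have hbij : Function.Bijective (fun c : Fin r → ZMod Q => fun i => (U : ZMod Q) * c i) := by
      constructor
      · intro c c' h
        funext i
        have := congrFun h i
        simpa using this
      · intro c
        exact ⟨fun i => (U⁻¹ : (ZMod Q)ˣ) * c i, by funext i; simp⟩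
    have h1 : ∑ c : Fin r → ZMod Q, G (fun i => (U : ZMod Q) * c i) = ∑ c, G c :=
      Fintype.sum_bijective _ hbij _ _ (fun _ => rfl)
    have h2 : ∀ c : Fin r → ZMod Q, G (fun i => (U : ZMod Q) * c i) = - G c := by
      intro c
      have h3 := hun (fun i => ((c i).val : ℤ))
      rw [hG] at h3
      rw [show G c = g (fun i => ((c i).val : ℤ)) from rfl, ← h3]
      congr 1
      funext i
      push_cast
      rw [hU]
      simp
    simp only [h2] at h1
    rw [Finset.sum_neg_distrib] at h1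
    linarith
  calc ∑ n ∈ Fintype.piFinset (fun _ : Fin r => Ico a (a + m * Q)), g n
      = ∑ c : Fin r → ZMod Q, ∑ n ∈ (Fintype.piFinset (fun _ : Fin r => Ico a (a + m * Q))).filter
          (fun n => (fun i => (n i : ZMod Q)) = c), g n := by
        rw [Finset.sum_fiberwise_of_maps_to (fun _ _ => Finset.mem_univ _)]
    _ = ∑ c : Fin r → ZMod Q, (m : ℤ) ^ r * G c := by
        apply Finset.sum_congr rfl
        intro c _
        have h4 : ∀ n ∈ (Fintype.piFinset (fun _ : Fin r => Ico a (a + m * Q))).filter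
          (fun n => (fun i => (n i : ZMod Q)) = c), g n = G c := by
          intro n hn
          rw [hG, (Finset.mem_filter.1 hn).2]
        rw [Finset.sum_congr rfl h4, Finset.sum_const, nsmul_eq_mul]
        congr 1
        have h5 : (Fintype.piFinset (fun _ : Fin r => Ico a (a + m * Q))).filter
          (fun n => (fun i => (n i : ZMod Q)) = c) =
          Fintype.piFinset (fun i : Fin r =>
            (Ico a (a + m * Q)).filter (fun k : ℤ => (k : ZMod Q) = c i)) := by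
          ext n
          simp only [Finset.mem_filter, Fintype.mem_piFinset, funext_iff]
          constructor
          · rintro ⟨h, h'⟩ i
            exact ⟨h i, h' i⟩
          · intro h
            exact ⟨fun i => (h i).1, fun i => (h i).2⟩
        rw [h5, Fintype.card_piFinset]
        simp [H1_card_res_mul]
    _ = 0 := by rw [← Finset.mul_sum, hsum, mul_zero]

private lemma H1_pow_sub (a b : ℕ) (h : a ≤ b) (r : ℕ) (hr : 0 < r) :
    b ^ r ≤ a ^ r + r * (b - a) * b ^ (r - 1) := by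
  obtain ⟨k, rfl⟩ := Nat.exists_eq_succ_of_ne_zero hr.ne'
  clear hr
  induction k with
  | zero => simp; omega
  | succ k ih =>
    simp only [Nat.succ_eq_add_one, Nat.add_sub_cancel] at ih ⊢
    obtain ⟨d, rfl⟩ := Nat.exists_eq_add_of_le h
    rw [Nat.add_sub_cancel_left] at ih ⊢
    have h1 : a ^ (k + 1) ≤ (a + d) ^ (k + 1) := Nat.pow_le_pow_left (Nat.le_add_right _ _) _
    calc (a + d) ^ (k + 1 + 1) = (a + d) ^ (k + 1) * (a + d) := by ring
      _ ≤ (a ^ (k + 1) + (k + 1) * d * (a + d) ^ k) * (a + d) := Nat.mul_le_mul_right _ ih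
      _ = a ^ (k + 1 + 1) + d * a ^ (k + 1) + (k + 1) * d * (a + d) ^ (k + 1) := by ring
      _ ≤ a ^ (k + 1 + 1) + d * (a + d) ^ (k + 1) + (k + 1) * d * (a + d) ^ (k + 1) := by
          gcongr
      _ = a ^ (k + 1 + 1) + (k + 1 + 1) * d * (a + d) ^ (k + 1) := by ring

private lemma H1_box_abs {r : ℕ} (hr : 0 < r) (g : (Fin r → ℤ) → ℤ) (Q : ℕ) (hQ : 0 < Q)
    (hg : ∀ n n' : Fin r → ℤ, (∀ i, (Q : ℤ) ∣ n i - n' i) → g n = g n')
    (hneg : ∃ u : ℤ, IsCoprime u (Q : ℤ) ∧ ∀ n, g (fun i => u * n i) = - g n)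
    (hg1 : ∀ n, |g n| ≤ 1) (S : ℕ) :
    |∑ n ∈ Fintype.piFinset (fun _ : Fin r => Icc (-(S : ℤ)) S), g n| ≤
      r * Q * (2 * S + 1) ^ (r - 1) := by
  classical
  set m := (2 * S + 1) / Q with hm
  have hmQ : m * Q ≤ 2 * S + 1 := Nat.div_mul_le_self _ _
  have hmQ2 : 2 * S + 1 - m * Q ≤ Q := by
    have := Nat.lt_div_mul_add (a := 2 * S + 1) hQ
    rw [← hm] at this
    omega
  set B := Fintype.piFinset (fun _ : Fin r => Icc (-(S : ℤ)) S) with hB
  set A := Fintype.piFinset (fun _ : Fin r => Ico (-(S : ℤ)) (-(S : ℤ) + m * Q)) with hA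
  have hAB : A ⊆ B := by
    apply Fintype.piFinset_subset
    intro _ x hx
    rw [mem_Ico] at hx
    rw [mem_Icc]
    have : (m : ℤ) * Q ≤ 2 * S + 1 := by exact_mod_cast hmQ
    constructor <;> linarith [hx.1, hx.2]
  have hAs : ∑ n ∈ A, g n = 0 := H1_box_sum g Q hQ hg hneg _ _
  have hBc : B.card = (2 * S + 1) ^ r := by
    rw [hB, Fintype.card_piFinset]
    simp only [Int.card_Icc, Finset.prod_const, Finset.card_univ, Fintype.card_fin]
    congr 1
    omega
  have hAc : A.card = (m * Q) ^ r := by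
    rw [hA, Fintype.card_piFinset]
    simp only [Int.card_Ico, Finset.prod_const, Finset.card_univ, Fintype.card_fin]
    congr 1
    have : (-(S : ℤ) + m * Q - -(S : ℤ)) = ((m * Q : ℕ) : ℤ) := by push_cast; ring
    rw [this, Int.toNat_natCast]
  have hsd : ∑ n ∈ B, g n = ∑ n ∈ B \ A, g n := by
    rw [← Finset.sum_sdiff hAB, hAs, add_zero]
  rw [hsd]
  have h1 : |∑ n ∈ B \ A, g n| ≤ ((B \ A).card : ℤ) := by
    calc |∑ n ∈ B \ A, g n| ≤ ∑ n ∈ B \ A, |g n| := Finset.abs_sum_le_sum_abs _ _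
      _ ≤ ∑ n ∈ B \ A, 1 := Finset.sum_le_sum (fun n _ => hg1 n)
      _ = ((B \ A).card : ℤ) := by simp
  refine h1.trans ?_
  rw [Finset.card_sdiff_of_subset hAB, hBc, hAc]
  have h2 := H1_pow_sub (m * Q) (2 * S + 1) hmQ r hr
  have h3 : (2 * S + 1) ^ r - (m * Q) ^ r ≤ r * Q * (2 * S + 1) ^ (r - 1) := by
    have : r * (2 * S + 1 - m * Q) * (2 * S + 1) ^ (r - 1) ≤ r * Q * (2 * S + 1) ^ (r - 1) := by
      gcongr
    omega
  exact_mod_cast h3

/-! ### products -/

private lemma H1_T_prod {Λ : Type} [CommRing Λ] (f : Λ → ℤ)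
    (hf : ∀ x x', f (x * x') = f x * f x') (k : ℕ) (v : Fin (k + 1) → Λ) :
    f (∏ i, v i) = ∏ i, f (v i) := by
  induction k with
  | zero => simp
  | succ k ih => rw [Fin.prod_univ_succ, hf, ih, Fin.prod_univ_succ (fun i => f (v i))]

private lemma H1_box_prod {Λ : Type} [CommRing Λ] (r : ℕ) (e : Λ ≃+ (Fin r → ℤ)) (c : ℕ)
    (hmul : ∀ (x y : Λ) (R R' : ℕ), (∀ i, |e x i| ≤ R) → (∀ i, |e y i| ≤ R') →
      ∀ i, |e (x * y) i| ≤ c * R * R') (R : ℕ) (k : ℕ) (v : Fin (k + 1) → Λ)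
    (hv : ∀ i j, |e (v i) j| ≤ R) (j : Fin r) : |e (∏ i, v i) j| ≤ c ^ k * R ^ (k + 1) := by
  induction k generalizing j with
  | zero => simpa using hv 0 j
  | succ k ih =>
    rw [Fin.prod_univ_succ]
    have h1 := hmul (v 0) (∏ i : Fin (k + 1), v i.succ) R (c ^ k * R ^ (k + 1)) (hv 0)
      (fun j => by
        have := ih (fun i => v i.succ) (fun i j => hv i.succ j) j
        push_cast
        exact this) j
    refine h1.trans (le_of_eq ?_)
    push_cast
    ring

theorem holder_box {Λ ι : Type} [CommRing Λ] [NoZeroDivisors Λ] [DecidableEq Λ] [DecidableEq ι]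
    (r : ℕ) (hr : 0 < r) (e : Λ ≃+ (Fin r → ℤ)) (c : ℕ)
    (hmul : ∀ (x y : Λ) (R R' : ℕ), (∀ i, |e x i| ≤ R) → (∀ i, |e y i| ≤ R') →
      ∀ i, |e (x * y) i| ≤ c * R * R')
    (T : Λ → ι → ℤ) (Y : Finset ι) (Q : ι → ℕ) (q : ℕ) (bad : Finset (ι × ι))
    (hT : ∀ x, ∀ y ∈ Y, T x y = 0 ∨ T x y = 1 ∨ T x y = -1)
    (hTm : ∀ x x', ∀ y ∈ Y, T (x * x') y = T x y * T x' y)
    (hTp : ∀ x x', ∀ y ∈ Y, T (x + (Q y : Λ) * x') y = T x y)
    (hQ : ∀ y ∈ Y, 0 < Q y ∧ Q y ≤ q)
    (horth : ∀ y ∈ Y, ∀ y' ∈ Y, (y, y') ∉ bad →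
      ∃ u : ℤ, IsCoprime u ((Q y * Q y' : ℕ) : ℤ) ∧ T (u : Λ) y * T (u : Λ) y' = -1)
    (l : ℕ) (hl : 0 < l) (X : Finset Λ) (R : ℕ) (hR : 0 < R) (hX : ∀ x ∈ X, ∀ i, |e x i| ≤ R)
    (α : Λ → ℝ) (hα : ∀ x, |α x| ≤ 1) (τ : ℕ)
    (hτ : ∀ z : Λ, ((Fintype.piFinset (fun _ : Fin (2 * l) => X)).filter
      (fun v => ∏ i, v i = z)).card ≤ τ)
    (S : ℕ) (hS : S = c ^ (2 * l) * R ^ (2 * l)) (hqS : q ^ 2 ≤ S) :
    (∑ y ∈ Y, |∑ x ∈ X, α x * T x y|) ^ (4 * l) ≤
      (Y.card : ℝ) ^ (4 * l - 2) * (τ * (X.card : ℝ) ^ (2 * l)) *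
        (bad.card * (3 * S : ℝ) ^ r + (Y.card : ℝ) ^ 2 * (2 * r * q ^ 2 * (4 * S : ℝ) ^ (r - 1))) := by
  classical
  rcases Y.eq_empty_or_nonempty with rfl | ⟨y0, hy0⟩
  · simp only [Finset.sum_empty]
    rw [zero_pow (by omega)]
    positivity
  have hq : 0 < q := lt_of_lt_of_le (hQ y0 hy0).1 (hQ y0 hy0).2
  have hS1 : 1 ≤ S := le_trans (Nat.one_le_iff_ne_zero.2 (by positivity)) hqS
  have hc : 1 ≤ c := by
    rcases Nat.eq_zero_or_pos c with rfl | h
    · rw [zero_pow (by omega), zero_mul] at hS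
      omega
    · exact h
  obtain ⟨k, hk⟩ : ∃ k, 2 * l = k + 1 := ⟨2 * l - 1, by omega⟩
  set V := Fintype.piFinset (fun _ : Fin (2 * l) => X) with hV
  set D := Fintype.piFinset (fun _ : Fin r => Icc (-(S : ℤ)) S) with hD
  set a : ι → ℝ := fun y => ∑ x ∈ X, α x * T x y with ha
  -- (1) the expansion
  have hTprod : ∀ y ∈ Y, ∀ v : Fin (2 * l) → Λ, T (∏ i, v i) y = ∏ i, T (v i) y := by
    intro y hy
    rw [hk]
    intro v
    exact H1_T_prod (fun x => T x y) (fun x x' => hTm x x' y hy) k v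
  have hbox : ∀ v ∈ V, e (∏ i, v i) ∈ D := by
    intro v hv
    rw [hV, Fintype.mem_piFinset] at hv
    rw [hD, Fintype.mem_piFinset]
    intro j
    rw [mem_Icc, ← abs_le]
    have h1 : ∀ (t : ℕ) (ht : t = k + 1) (v : Fin t → Λ) (hv : ∀ i j, |e (v i) j| ≤ R) (j : Fin r),
        |e (∏ i, v i) j| ≤ c ^ k * R ^ (k + 1) := by
      intro t ht
      subst ht
      intro v hv j
      exact H1_box_prod r e c hmul R k v hv j
    refine (h1 (2 * l) hk v (fun i j => hX _ (hv i) j) j).trans ?_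
    rw [hS, hk]
    have : c ^ k * R ^ (k + 1) ≤ c ^ (k + 1) * R ^ (k + 1) :=
      Nat.mul_le_mul_right _ (Nat.pow_le_pow_right hc (Nat.le_succ k))
    exact_mod_cast this
  set cf : (Fin r → ℤ) → ℝ := fun n => ∑ v ∈ V.filter (fun v => e (∏ i, v i) = n), ∏ i, α (v i)
    with hcf
  set h : (Fin r → ℤ) → ℝ := fun n => ∑ y ∈ Y, (T (e.symm n) y : ℝ) with hh
  have hexp : ∀ y ∈ Y, a y ^ (2 * l) = ∑ n ∈ D, cf n * (T (e.symm n) y : ℝ) := by
    intro y hy
    rw [ha, Finset.sum_pow']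
    rw [← Finset.sum_fiberwise_of_maps_to hbox]
    apply Finset.sum_congr rfl
    intro n _
    rw [hcf, Finset.sum_mul]
    apply Finset.sum_congr rfl
    intro v hv
    have hv2 := (Finset.mem_filter.1 hv).2
    have : e.symm n = ∏ i, v i := by rw [← hv2, AddEquiv.symm_apply_apply]
    rw [this, hTprod y hy v, Finset.prod_mul_distrib]
    push_cast
    rfl
  have hcf1 : ∀ n, |cf n| ≤ ((V.filter (fun v => e (∏ i, v i) = n)).card : ℝ) := by
    intro n
    calc |cf n| ≤ ∑ v ∈ V.filter (fun v => e (∏ i, v i) = n), |∏ i, α (v i)| :=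
          Finset.abs_sum_le_sum_abs _ _
      _ ≤ ∑ v ∈ V.filter (fun v => e (∏ i, v i) = n), (1 : ℝ) := by
          apply Finset.sum_le_sum
          intro v _
          rw [Finset.abs_prod]
          exact Finset.prod_le_one (fun i _ => abs_nonneg _) (fun i _ => hα _)
      _ = _ := by simp
  have hcf2 : ∀ n, |cf n| ≤ τ := by
    intro n
    refine (hcf1 n).trans ?_
    have : V.filter (fun v => e (∏ i, v i) = n) = V.filter (fun v => ∏ i, v i = e.symm n) := by
      apply Finset.filter_congr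
      intro v _
      constructor
      · intro h; rw [← h, AddEquiv.symm_apply_apply]
      · intro h; rw [h, AddEquiv.apply_symm_apply]
    rw [this]
    exact_mod_cast hτ _
  have hcf3 : ∑ n ∈ D, |cf n| ≤ (X.card : ℝ) ^ (2 * l) := by
    calc ∑ n ∈ D, |cf n| ≤ ∑ n ∈ D, ((V.filter (fun v => e (∏ i, v i) = n)).card : ℝ) :=
          Finset.sum_le_sum (fun n _ => hcf1 n)
      _ = (V.card : ℝ) := by
          rw [← Nat.cast_sum, ← Finset.card_eq_sum_card_fiberwise hbox]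
      _ = (X.card : ℝ) ^ (2 * l) := by
          rw [hV, Fintype.card_piFinset]
          simp
  have hcf4 : ∑ n ∈ D, cf n ^ 2 ≤ τ * (X.card : ℝ) ^ (2 * l) := by
    calc ∑ n ∈ D, cf n ^ 2 = ∑ n ∈ D, |cf n| * |cf n| := by
          apply Finset.sum_congr rfl
          intro n _
          rw [← pow_two, sq_abs]
      _ ≤ ∑ n ∈ D, τ * |cf n| := by
          apply Finset.sum_le_sum
          intro n _
          exact mul_le_mul_of_nonneg_right (hcf2 n) (abs_nonneg _)
      _ = τ * ∑ n ∈ D, |cf n| := by rw [Finset.mul_sum]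
      _ ≤ τ * (X.card : ℝ) ^ (2 * l) := by gcongr
  -- (2) Cauchy
  have hsumy : ∑ y ∈ Y, |a y| ^ (2 * l) = ∑ n ∈ D, cf n * h n := by
    calc ∑ y ∈ Y, |a y| ^ (2 * l) = ∑ y ∈ Y, ∑ n ∈ D, cf n * (T (e.symm n) y : ℝ) := by
          apply Finset.sum_congr rfl
          intro y hy
          rw [pow_mul, sq_abs, ← pow_mul, hexp y hy]
      _ = ∑ n ∈ D, cf n * h n := by
          rw [Finset.sum_comm]
          apply Finset.sum_congr rfl
          intro n _
          rw [hh, Finset.mul_sum]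
  have hcs : (∑ y ∈ Y, |a y| ^ (2 * l)) ^ 2 ≤
      (τ * (X.card : ℝ) ^ (2 * l)) * ∑ n ∈ D, h n ^ 2 := by
    rw [hsumy]
    refine (Finset.sum_mul_sq_le_sq_mul_sq D cf h).trans ?_
    exact mul_le_mul_of_nonneg_right hcf4 (Finset.sum_nonneg (fun _ _ => sq_nonneg _))
  -- (3) the second moment
  have hT1 : ∀ x, ∀ y ∈ Y, |T x y| ≤ 1 := by
    intro x y hy
    rcases hT x y hy with h | h | h <;> rw [h] <;> simp
  have hDc : (D.card : ℝ) ≤ (3 * S : ℝ) ^ r := by
    have h1 : D.card = (2 * S + 1) ^ r := by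
      rw [hD, Fintype.card_piFinset]
      simp only [Int.card_Icc, Finset.prod_const, Finset.card_univ, Fintype.card_fin]
      congr 1
      omega
    rw [h1]
    push_cast
    apply pow_le_pow_left₀ (by positivity)
    have : (1 : ℝ) ≤ S := by exact_mod_cast hS1
    linarith
  have hpair : ∀ y ∈ Y, ∀ y' ∈ Y, |∑ n ∈ D, ((T (e.symm n) y : ℝ) * (T (e.symm n) y' : ℝ))| ≤
      (if (y, y') ∈ bad then (3 * S : ℝ) ^ r else 0) + 2 * r * q ^ 2 * (4 * S : ℝ) ^ (r - 1) := by
    intro y hy y' hy'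
    by_cases hb : (y, y') ∈ bad
    · rw [if_pos hb]
      have h1 : |∑ n ∈ D, ((T (e.symm n) y : ℝ) * (T (e.symm n) y' : ℝ))| ≤ (D.card : ℝ) := by
        calc |∑ n ∈ D, ((T (e.symm n) y : ℝ) * (T (e.symm n) y' : ℝ))|
            ≤ ∑ n ∈ D, |(T (e.symm n) y : ℝ) * (T (e.symm n) y' : ℝ)| :=
              Finset.abs_sum_le_sum_abs _ _
          _ ≤ ∑ n ∈ D, (1 : ℝ) := by
              apply Finset.sum_le_sum
              intro n _
              rw [abs_mul]
              have h2 : |(T (e.symm n) y : ℝ)| ≤ 1 := by exact_mod_cast hT1 (e.symm n) y hy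
              have h3 : |(T (e.symm n) y' : ℝ)| ≤ 1 := by exact_mod_cast hT1 (e.symm n) y' hy'
              exact mul_le_one₀ h2 (abs_nonneg _) h3
          _ = (D.card : ℝ) := by simp
      have h4 : 0 ≤ 2 * (r : ℝ) * q ^ 2 * (4 * S : ℝ) ^ (r - 1) := by positivity
      linarith [h1.trans hDc]
    · rw [if_neg hb, zero_add]
      obtain ⟨u, hu, huT⟩ := horth y hy y' hy' hb
      have hsymm : ∀ n n' : Fin r → ℤ, ∀ M : ℕ, (∀ i, (M : ℤ) ∣ n i - n' i) →
          ∃ w : Λ, e.symm n = e.symm n' + (M : Λ) * w := by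
        intro n n' M hM
        choose d hd using hM
        refine ⟨e.symm d, ?_⟩
        have h1 : n = n' + M • d := by
          funext i
          have h2 := hd i
          rw [Pi.add_apply, Pi.smul_apply, nsmul_eq_mul]
          linarith
        rw [h1, map_add, map_nsmul, nsmul_eq_mul]
      have hbx := H1_box_abs hr (fun n => T (e.symm n) y * T (e.symm n) y') (Q y * Q y')
        (Nat.mul_pos (hQ y hy).1 (hQ y' hy').1)
        (by
          intro n n' hnn
          have hn1 : T (e.symm n) y = T (e.symm n') y := by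
            obtain ⟨w, hw⟩ := hsymm n n' (Q y) (fun i => dvd_trans ⟨(Q y' : ℤ), by push_cast; ring⟩ (hnn i))
            rw [hw, hTp _ _ y hy]
          have hn2 : T (e.symm n) y' = T (e.symm n') y' := by
            obtain ⟨w, hw⟩ := hsymm n n' (Q y') (fun i => dvd_trans ⟨(Q y : ℤ), by push_cast; ring⟩ (hnn i))
            rw [hw, hTp _ _ y' hy']
          simp only [hn1, hn2])
        ⟨u, hu, by
          intro n
          have h1 : e.symm (fun i => u * n i) = (u : Λ) * e.symm n := by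
            have : (fun i => u * n i) = u • n := by
              funext i; simp
            rw [this, map_zsmul, zsmul_eq_mul]
          simp only [h1]
          rw [hTm _ _ y hy, hTm _ _ y' hy']
          calc T (u : Λ) y * T (e.symm n) y * (T (u : Λ) y' * T (e.symm n) y')
              = (T (u : Λ) y * T (u : Λ) y') * (T (e.symm n) y * T (e.symm n) y') := by ring
            _ = _ := by rw [huT]; ring⟩
        (by
          intro n
          simp only [abs_mul]
          exact mul_le_one₀ (hT1 _ y hy) (abs_nonneg _) (hT1 _ y' hy')) S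
      have h5 : |∑ n ∈ D, ((T (e.symm n) y : ℝ) * (T (e.symm n) y' : ℝ))| =
          ((|∑ n ∈ D, (T (e.symm n) y * T (e.symm n) y')| : ℤ) : ℝ) := by
        push_cast
        rfl
      rw [h5]
      have h6 : ((|∑ n ∈ D, (T (e.symm n) y * T (e.symm n) y')| : ℤ) : ℝ) ≤
          ((r * ((Q y * Q y' : ℕ) : ℤ) * (2 * S + 1) ^ (r - 1) : ℤ) : ℝ) := by
        exact_mod_cast hbx
      refine h6.trans ?_
      push_cast
      have h7 : (Q y : ℝ) * Q y' ≤ q ^ 2 := by
        rw [pow_two]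
        have h8 : (Q y : ℝ) ≤ q := by exact_mod_cast (hQ y hy).2
        have h9 : (Q y' : ℝ) ≤ q := by exact_mod_cast (hQ y' hy').2
        exact mul_le_mul h8 h9 (by positivity) (by positivity)
      have h10 : (2 * (S : ℝ) + 1) ^ (r - 1) ≤ (4 * S : ℝ) ^ (r - 1) := by
        apply pow_le_pow_left₀ (by positivity)
        have : (1 : ℝ) ≤ S := by exact_mod_cast hS1
        linarith
      calc (r : ℝ) * ((Q y : ℝ) * Q y') * (2 * (S : ℝ) + 1) ^ (r - 1)
          ≤ r * q ^ 2 * (4 * S : ℝ) ^ (r - 1) := by gcongr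
        _ ≤ 2 * r * q ^ 2 * (4 * S : ℝ) ^ (r - 1) := by
            have : 0 ≤ (r : ℝ) * q ^ 2 * (4 * S : ℝ) ^ (r - 1) := by positivity
            linarith
  have hsec : ∑ n ∈ D, h n ^ 2 ≤ bad.card * (3 * S : ℝ) ^ r +
      (Y.card : ℝ) ^ 2 * (2 * r * q ^ 2 * (4 * S : ℝ) ^ (r - 1)) := by
    calc ∑ n ∈ D, h n ^ 2
        = ∑ n ∈ D, ∑ p ∈ Y ×ˢ Y, ((T (e.symm n) p.1 : ℝ) * (T (e.symm n) p.2 : ℝ)) := by
          apply Finset.sum_congr rfl
          intro n _
          rw [pow_two, hh, Finset.sum_mul_sum, Finset.sum_product]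
      _ = ∑ p ∈ Y ×ˢ Y, ∑ n ∈ D, ((T (e.symm n) p.1 : ℝ) * (T (e.symm n) p.2 : ℝ)) :=
          Finset.sum_comm
      _ ≤ ∑ p ∈ Y ×ˢ Y, ((if p ∈ bad then (3 * S : ℝ) ^ r else 0) +
            2 * r * q ^ 2 * (4 * S : ℝ) ^ (r - 1)) := by
          apply Finset.sum_le_sum
          intro p hp
          rw [Finset.mem_product] at hp
          exact (le_abs_self _).trans (hpair p.1 hp.1 p.2 hp.2)
      _ = ∑ p ∈ Y ×ˢ Y, (if p ∈ bad then (3 * S : ℝ) ^ r else 0) +
            (Y.card : ℝ) ^ 2 * (2 * r * q ^ 2 * (4 * S : ℝ) ^ (r - 1)) := by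
          rw [Finset.sum_add_distrib, Finset.sum_const, Finset.card_product, nsmul_eq_mul]
          push_cast
          ring
      _ ≤ bad.card * (3 * S : ℝ) ^ r +
            (Y.card : ℝ) ^ 2 * (2 * r * q ^ 2 * (4 * S : ℝ) ^ (r - 1)) := by
          have h1 : ∑ p ∈ Y ×ˢ Y, (if p ∈ bad then (3 * S : ℝ) ^ r else 0) ≤
              bad.card * (3 * S : ℝ) ^ r := by
            rw [← Finset.sum_filter, Finset.sum_const, nsmul_eq_mul]
            apply mul_le_mul_of_nonneg_right _ (by positivity)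
            have : ((Y ×ˢ Y).filter (fun p => p ∈ bad)).card ≤ bad.card := by
              apply Finset.card_le_card
              intro p hp
              exact (Finset.mem_filter.1 hp).2
            exact_mod_cast this
          linarith
  -- (4) Hölder
  have hho : (∑ y ∈ Y, |a y|) ^ (2 * l) ≤ (Y.card : ℝ) ^ (2 * l - 1) * ∑ y ∈ Y, |a y| ^ (2 * l) := by
    have h1 := pow_sum_le_card_mul_sum_pow (s := Y) (f := fun y => |a y|)
      (fun _ _ => abs_nonneg _) k
    rw [hk, Nat.add_sub_cancel]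
    exact h1
  have hnn : 0 ≤ (∑ y ∈ Y, |a y|) ^ (2 * l) := by positivity
  calc (∑ y ∈ Y, |a y|) ^ (4 * l) = ((∑ y ∈ Y, |a y|) ^ (2 * l)) ^ 2 := by
        rw [← pow_mul]; congr 1; ring
    _ ≤ ((Y.card : ℝ) ^ (2 * l - 1) * ∑ y ∈ Y, |a y| ^ (2 * l)) ^ 2 :=
        pow_le_pow_left₀ hnn hho 2
    _ = (Y.card : ℝ) ^ (4 * l - 2) * (∑ y ∈ Y, |a y| ^ (2 * l)) ^ 2 := by
        rw [mul_pow, ← pow_mul]
        congr 2
        omega
    _ ≤ (Y.card : ℝ) ^ (4 * l - 2) * ((τ * (X.card : ℝ) ^ (2 * l)) * ∑ n ∈ D, h n ^ 2) := by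
        gcongr
    _ ≤ (Y.card : ℝ) ^ (4 * l - 2) * ((τ * (X.card : ℝ) ^ (2 * l)) *
          (bad.card * (3 * S : ℝ) ^ r +
            (Y.card : ℝ) ^ 2 * (2 * r * q ^ 2 * (4 * S : ℝ) ^ (r - 1)))) := by
        gcongr
    _ = _ := by ring

end Pool.Agent.TM32
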